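import Mathlib

set_option autoImplicit false

namespace Pool.Agent.P.MP_719a5e_nt

open Filter Topology Polynomial

noncomputable def kap (n : ℕ) : ℝ := (Nat.centralBinom n : ℝ) / 4 ^ n

lemma kap_zero : kap 0 = 1 := by simp [kap]

lemma kap_succ (n : ℕ) : kap (n + 1) = kap n * (2 * n + 1) / (2 * (n + 1)) := by
  have h : ((n : ℝ) + 1) * (Nat.centralBinom (n + 1) : ℝ) = 2 * (2 * n + 1) * Nat.centralBinom n := by
    exact_mod_cast Nat.succ_mul_centralBinom_succ n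
  have hn : (n : ℝ) + 1 ≠ 0 := by positivity
  have h2 : (Nat.centralBinom (n + 1) : ℝ) = 2 * (2 * n + 1) * Nat.centralBinom n / (n + 1) := by
    rw [← h]; field_simp
  unfold kap
  rw [h2]; field_simp; ring

noncomputable def psi (w : ℝ) : ℕ → ℝ → ℝ
  | 0 => fun _ => 0
  | n + 1 => fun τ => (τ / (τ ^ 2 + w) ^ (n + 1) + (2 * n + 1) * psi w n τ) / (2 * (n + 1) * w)

lemma psi_deriv (w : ℝ) (hw : 0 < w) (n : ℕ) (τ : ℝ) :
    HasDerivAt (psi w n) (1 / (τ ^ 2 + w) ^ (n + 1) - kap n / w ^ n / (τ ^ 2 + w)) τ := by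
  have hy : τ ^ 2 + w ≠ 0 := by positivity
  induction n with
  | zero =>
    have : 1 / (τ ^ 2 + w) ^ (0 + 1) - kap 0 / w ^ 0 / (τ ^ 2 + w) = 0 := by simp [kap_zero]
    rw [this]
    exact hasDerivAt_const τ 0
  | succ n ih =>
    have h1 : HasDerivAt (fun τ : ℝ => τ ^ 2 + w) (2 * τ) τ := by
      simpa using ((hasDerivAt_pow 2 τ).add_const w)
    have h2 := h1.pow (n + 1)
    have h3 := (hasDerivAt_id τ).div h2 (pow_ne_zero _ hy)
    have h4 := (h3.add (ih.const_mul (2 * (n : ℝ) + 1))).div_const (2 * ((n : ℝ) + 1) * w)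
    have e : (1 / (τ ^ 2 + w) ^ (n + 1 + 1) - kap (n + 1) / w ^ (n + 1) / (τ ^ 2 + w)) =
        ((1 * (τ ^ 2 + w) ^ (n + 1) - τ * (((n + 1 : ℕ) : ℝ) * (τ ^ 2 + w) ^ (n + 1 - 1) * (2 * τ))) /
            ((τ ^ 2 + w) ^ (n + 1)) ^ 2 +
          (2 * (n : ℝ) + 1) * (1 / (τ ^ 2 + w) ^ (n + 1) - kap n / w ^ n / (τ ^ 2 + w))) /
          (2 * ((n : ℝ) + 1) * w) := by
      rw [kap_succ]
      have hw' : w = (τ ^ 2 + w) - τ ^ 2 := by ring
      have hn : (n : ℝ) + 1 ≠ 0 := by positivity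
      simp only [Nat.add_sub_cancel]
      push_cast
      field_simp
      ring
    rw [e]
    exact h4

lemma psi_zero (w : ℝ) (n : ℕ) : psi w n 0 = 0 := by
  induction n with
  | zero => rfl
  | succ n ih => simp [psi, ih]

lemma psi_tendsto (w : ℝ) (hw : 0 < w) (n : ℕ) : Tendsto (psi w n) atTop (𝓝 0) := by
  induction n with
  | zero => exact tendsto_const_nhds
  | succ n ih =>
    have h1 : Tendsto (fun τ : ℝ => τ / (τ ^ 2 + w) ^ (n + 1)) atTop (𝓝 0) := by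
      refine tendsto_of_tendsto_of_tendsto_of_le_of_le' tendsto_const_nhds tendsto_inv_atTop_zero ?_ ?_
      · filter_upwards [eventually_ge_atTop (1 : ℝ)] with τ hτ
        positivity
      · filter_upwards [eventually_ge_atTop (1 : ℝ)] with τ hτ
        have hy : 1 ≤ τ ^ 2 + w := by nlinarith
        have h2 : τ ^ 2 + w ≤ (τ ^ 2 + w) ^ (n + 1) := le_self_pow₀ hy (by omega)
        rw [div_le_iff₀ (by positivity), inv_mul_eq_div, le_div_iff₀ (by positivity)]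
        nlinarith
    have h2 := (h1.add (ih.const_mul (2 * (n : ℝ) + 1))).div_const (2 * ((n : ℝ) + 1) * w)
    simp only [mul_zero, add_zero, zero_div] at h2
    exact h2

lemma psi_poly (w : ℝ) (hw : 0 < w) (n : ℕ) :
    ∃ V : ℝ[X], ∀ τ : ℝ, psi w n τ = τ * V.eval (τ ^ 2) / (τ ^ 2 + w) ^ n := by
  induction n with
  | zero => exact ⟨0, fun τ => by simp [psi]⟩
  | succ n ih =>
    obtain ⟨V, hV⟩ := ih
    refine ⟨C (1 / (2 * ((n : ℝ) + 1) * w)) * (1 + C (2 * (n : ℝ) + 1) * (X + C w) * V), fun τ => ?_⟩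
    have hy : τ ^ 2 + w ≠ 0 := by positivity
    have hn : (n : ℝ) + 1 ≠ 0 := by positivity
    simp only [psi, hV, eval_mul, eval_C, eval_add, eval_one, eval_X]
    field_simp
    ring

lemma atan_deriv (w : ℝ) (hw : 0 < w) (τ : ℝ) :
    HasDerivAt (fun τ => Real.arctan (τ / √w) / √w) (1 / (τ ^ 2 + w)) τ := by
  have hs : 0 < √w := Real.sqrt_pos.mpr hw
  have h1 : HasDerivAt (fun τ : ℝ => τ / √w) (1 / √w) τ := (hasDerivAt_id τ).div_const _
  have h2 := (h1.arctan).div_const √w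
  have e : 1 / (τ ^ 2 + w) = 1 / (1 + (τ / √w) ^ 2) * (1 / √w) / √w := by
    have hq : √w ^ 2 = w := Real.sq_sqrt hw.le
    field_simp
    rw [hq]; ring
  rw [e]; exact h2

lemma atan_tendsto (w : ℝ) (hw : 0 < w) :
    Tendsto (fun τ => Real.arctan (τ / √w) / √w) atTop (𝓝 (Real.pi / 2 / √w)) := by
  have hs : 0 < √w := Real.sqrt_pos.mpr hw
  have h1 : Tendsto (fun τ : ℝ => τ / √w) atTop atTop := tendsto_id.atTop_div_const hs
  have h2 : Tendsto Real.arctan atTop (𝓝 (Real.pi / 2)) :=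
    Real.tendsto_arctan_atTop.mono_right nhdsWithin_le_nhds
  exact (h2.comp h1).div_const _

lemma lim_nonneg (Φ g : ℝ → ℝ) (L : ℝ) (hd : ∀ τ, HasDerivAt Φ (g τ) τ) (hg : ∀ τ, 0 ≤ g τ)
    (h0 : Φ 0 = 0) (hl : Tendsto Φ atTop (𝓝 L)) : 0 ≤ L := by
  have hm : Monotone Φ := monotone_of_deriv_nonneg (fun τ => (hd τ).differentiableAt)
    (fun τ => by rw [(hd τ).deriv]; exact hg τ)
  refine ge_of_tendsto hl ?_
  filter_upwards [eventually_ge_atTop (0 : ℝ)] with τ hτ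
  rw [← h0]; exact hm hτ

lemma lemA (w1 w2 w3 b K ρ1 ρ2 ρ3 : ℝ) (h1 : 0 < w1) (h2 : 0 < w2) (h3 : 0 < w3) (hb : 0 < b)
    (Ω g : ℝ → ℝ)
    (hd : ∀ τ, HasDerivAt Ω (g τ - (ρ1 / (τ ^ 2 + w1) + ρ2 / (τ ^ 2 + w2) + ρ3 / (τ ^ 2 + w3))) τ)
    (h0 : Ω 0 = 0) (hl : Tendsto Ω atTop (𝓝 0)) (hg : ∀ τ, 0 ≤ g τ)
    (hK : ∀ τ, g τ ≤ K / (τ ^ 2 + b)) :
    0 ≤ ρ1 / √w1 + ρ2 / √w2 + ρ3 / √w3 ∧ ρ1 / √w1 + ρ2 / √w2 + ρ3 / √w3 ≤ K / √b := by
  set Φ : ℝ → ℝ := fun τ => Ω τ + (ρ1 * (Real.arctan (τ / √w1) / √w1)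
    + ρ2 * (Real.arctan (τ / √w2) / √w2) + ρ3 * (Real.arctan (τ / √w3) / √w3)) with hΦ
  have dΦ : ∀ τ, HasDerivAt Φ (g τ) τ := by
    intro τ
    have := (hd τ).add ((((atan_deriv w1 h1 τ).const_mul ρ1).add
      ((atan_deriv w2 h2 τ).const_mul ρ2)).add ((atan_deriv w3 h3 τ).const_mul ρ3))
    have e : g τ = g τ - (ρ1 / (τ ^ 2 + w1) + ρ2 / (τ ^ 2 + w2) + ρ3 / (τ ^ 2 + w3)) +
        (ρ1 * (1 / (τ ^ 2 + w1)) + ρ2 * (1 / (τ ^ 2 + w2)) + ρ3 * (1 / (τ ^ 2 + w3))) := by ring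
    rw [e]; exact this
  have Φ0 : Φ 0 = 0 := by simp [hΦ, h0]
  have lΦ : Tendsto Φ atTop (𝓝 (0 + (ρ1 * (Real.pi / 2 / √w1) + ρ2 * (Real.pi / 2 / √w2)
      + ρ3 * (Real.pi / 2 / √w3)))) :=
    hl.add ((((atan_tendsto w1 h1).const_mul ρ1).add ((atan_tendsto w2 h2).const_mul ρ2)).add
      ((atan_tendsto w3 h3).const_mul ρ3))
  have e : 0 + (ρ1 * (Real.pi / 2 / √w1) + ρ2 * (Real.pi / 2 / √w2) + ρ3 * (Real.pi / 2 / √w3))
      = Real.pi / 2 * (ρ1 / √w1 + ρ2 / √w2 + ρ3 / √w3) := by ring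
  rw [e] at lΦ
  have hp : 0 < Real.pi / 2 := by positivity
  have A := lim_nonneg Φ g _ dΦ hg Φ0 lΦ
  have B := lim_nonneg (fun τ => K * (Real.arctan (τ / √b) / √b) - Φ τ)
    (fun τ => K * (1 / (τ ^ 2 + b)) - g τ) _
    (fun τ => ((atan_deriv b hb τ).const_mul K).sub (dΦ τ))
    (fun τ => by have := hK τ; rw [mul_one_div]; linarith) (by simp [Φ0])
    (((atan_tendsto b hb).const_mul K).sub lΦ)
  refine ⟨(mul_nonneg_iff_of_pos_left hp).mp A, ?_⟩
  have e2 : K * (Real.pi / 2 / √b) - Real.pi / 2 * (ρ1 / √w1 + ρ2 / √w2 + ρ3 / √w3)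
      = Real.pi / 2 * (K / √b - (ρ1 / √w1 + ρ2 / √w2 + ρ3 / √w3)) := by ring
  rw [e2] at B
  have := (mul_nonneg_iff_of_pos_left hp).mp B
  linarith

lemma lemB (k : ℕ) (e1 e2 e3 : ℝ) (he : e3 ≠ 0) (S B : ℝ[X]) (hB : B.natDegree ≤ 2)
    (hid : X ^ (k + 1) * B = (S + 2 * X * derivative S) * (X ^ 3 + C e1 * X ^ 2 + C e2 * X + C e3)
      - 2 * (k : ℝ[X]) * X * S * (3 * X ^ 2 + 2 * C e1 * X + C e2)) : S = 0 := by
  by_contra hS
  have low : ∀ j, j ≤ k + 1 → X ^ j ∣ S := by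
    intro j
    induction j with
    | zero => intro _; simp
    | succ j ih =>
      intro hj
      obtain ⟨S1, hS1⟩ := ih (by omega)
      obtain ⟨i, hi⟩ : ∃ i, k + 1 = j + (i + 1) := ⟨k - j, by omega⟩
      have hder : X * derivative S = X ^ j * ((j : ℝ[X]) * S1 + X * derivative S1) := by
        rw [hS1, derivative_mul, derivative_X_pow]
        rcases j with _ | j
        · simp
        · simp only [Nat.add_sub_cancel, map_natCast]; push_cast; ring
      have h2 : X ^ j * (X ^ (i + 1) * B) = X ^ j *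
          ((S1 + 2 * ((j : ℝ[X]) * S1 + X * derivative S1)) * (X ^ 3 + C e1 * X ^ 2 + C e2 * X + C e3)
            - 2 * (k : ℝ[X]) * X * S1 * (3 * X ^ 2 + 2 * C e1 * X + C e2)) := by
        rw [← mul_assoc, ← pow_add, ← hi, hid, mul_assoc 2 X, hder]
        rw [hS1]
        ring
      have h3 := mul_left_cancel₀ (pow_ne_zero j X_ne_zero) h2
      have h4 := congrArg (eval 0) h3
      simp at h4
      have h5 : S1.eval 0 = 0 := by
        rcases h4 with h4 | h4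
        · have : (1 + 2 * (j : ℝ)) * S1.eval 0 = 0 := by linarith
          rcases mul_eq_zero.mp this with h | h
          · exfalso; have : (0 : ℝ) < 1 + 2 * j := by positivity
            linarith
          · exact h
        · exact absurd h4 he
      have h6 : X ∣ S1 := by rw [X_dvd_iff, coeff_zero_eq_eval_zero]; exact h5
      rw [hS1, pow_succ]
      exact mul_dvd_mul_left _ h6
  have hdeg : k + 1 ≤ S.natDegree := by
    have := natDegree_le_of_dvd (low (k + 1) le_rfl) hS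
    simpa using this
  set d := S.natDegree with hd
  have hz : ∀ i, d < i → S.coeff i = 0 := fun i hi => coeff_eq_zero_of_natDegree_lt hi
  have hL : (X ^ (k + 1) * B).coeff (d + 3) = 0 := by
    apply coeff_eq_zero_of_natDegree_lt
    have := natDegree_mul_le (p := (X : ℝ[X]) ^ (k + 1)) (q := B)
    simp at this
    omega
  have hR : (S + 2 * X * derivative S) * (X ^ 3 + C e1 * X ^ 2 + C e2 * X + C e3)
      - 2 * (k : ℝ[X]) * X * S * (3 * X ^ 2 + 2 * C e1 * X + C e2)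
      = C (1 - 6 * (k : ℝ)) * (S * X ^ 3) + C (e1 * (1 - 4 * k)) * (S * X ^ 2)
        + C (e2 * (1 - 2 * k)) * (S * X ^ 1) + C e3 * S
        + C 2 * (derivative S * X ^ 4) + C (2 * e1) * (derivative S * X ^ 3)
        + C (2 * e2) * (derivative S * X ^ 2) + C (2 * e3) * (derivative S * X ^ 1) := by
    simp only [map_sub, map_mul, map_one, map_natCast, map_ofNat]
    ring
  rw [hid, hR] at hL
  obtain ⟨d', hd'⟩ : ∃ d', d = d' + 1 := ⟨d - 1, by omega⟩
  have c1 : (S * X ^ 3).coeff (d + 3) = S.coeff d := coeff_mul_X_pow _ _ _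
  have c2 : (S * X ^ 2).coeff (d + 3) = 0 := by
    rw [show d + 3 = (d + 1) + 2 by ring, coeff_mul_X_pow]; exact hz _ (by omega)
  have c3 : (S * X ^ 1).coeff (d + 3) = 0 := by
    rw [show d + 3 = (d + 2) + 1 by ring, coeff_mul_X_pow]; exact hz _ (by omega)
  have c4 : S.coeff (d + 3) = 0 := hz _ (by omega)
  have c5 : (derivative S * X ^ 4).coeff (d + 3) = S.coeff d * d := by
    rw [show d + 3 = d' + 4 by omega, coeff_mul_X_pow, coeff_derivative, hd']; push_cast; ring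
  have c6 : (derivative S * X ^ 3).coeff (d + 3) = 0 := by
    rw [coeff_mul_X_pow, coeff_derivative, hz _ (by omega)]; ring
  have c7 : (derivative S * X ^ 2).coeff (d + 3) = 0 := by
    rw [show d + 3 = (d + 1) + 2 by ring, coeff_mul_X_pow, coeff_derivative, hz _ (by omega)]; ring
  have c8 : (derivative S * X ^ 1).coeff (d + 3) = 0 := by
    rw [show d + 3 = (d + 2) + 1 by ring, coeff_mul_X_pow, coeff_derivative, hz _ (by omega)]; ring
  simp only [coeff_add, coeff_C_mul, c1, c2, c3, c4, c5, c6, c7, c8] at hL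
  have hlc : S.coeff d ≠ 0 := leadingCoeff_ne_zero.mpr hS
  have : (1 - 6 * (k : ℝ) + 2 * d) * S.coeff d = 0 := by linarith
  rcases mul_eq_zero.mp this with h | h
  · have h' : (1 - 6 * (k : ℤ) + 2 * d) = 0 := by exact_mod_cast h
    omega
  · exact hlc h

end Pool.Agent.P.MP_719a5e_nt
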