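import Pool.Agent.P.MP_719a5e_nt.Node

set_option autoImplicit false

namespace Pool.Agent.P.MP_719a5e_nt

open Filter Topology Polynomial

lemma mixed_le (x y q : ℤ) (hx : 0 < x) (hy : 0 < y) (hxq : x ≤ q) (hyq : y ≤ q) (i j : ℕ) :
    |y ^ i * (x - y) ^ j| ≤ q ^ (i + j) := by
  rw [abs_mul, abs_pow, abs_pow, abs_of_pos hy, pow_add]
  have : |x - y| ≤ q := by rw [abs_le]; constructor <;> linarith
  have : 0 < q := by linarith
  gcongr

lemma term_int (a a' a'' b q : ℤ) (ha : 0 < a) (ha' : 0 < a') (ha'' : 0 < a'') (hq : a ≤ q)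
    (hq' : a' ≤ q) (hq'' : a'' ≤ q) (hb : 0 < b) (g0 n G1 G2 k : ℕ) (hk : k = g0 + n + G1 + G2)
    (c : ℤ) (hc : |c| ≤ 2 ^ (5 * k)) :
    |a ^ k * (c * (4 ^ (g0 + G1 + G2) * (Nat.centralBinom n : ℤ)) * (a * b + 1) ^ (G1 + G2) *
      (a' ^ G1 * (a - a') ^ (g0 + n + G2)) * (a'' ^ G2 * (a - a'') ^ (g0 + n + G1)) *
      (a' - a'') ^ (2 * k))| ≤ (2 ^ 7 * (b + 1) * q ^ 6) ^ k := by
  have hq0 : 0 < q := by linarith
  have b1 := mixed_le a a' q ha ha' hq hq' G1 (g0 + n + G2)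
  have b2 := mixed_le a a'' q ha ha'' hq hq'' G2 (g0 + n + G1)
  have b3 := mixed_le a' a'' q ha' ha'' hq' hq'' 0 (2 * k)
  rw [show G1 + (g0 + n + G2) = k by omega] at b1
  rw [show G2 + (g0 + n + G1) = k by omega] at b2
  rw [pow_zero, one_mul, zero_add] at b3
  have b4 : |a ^ k| ≤ q ^ k := by rw [abs_pow, abs_of_pos ha]; gcongr
  have b5 : |(4 : ℤ) ^ (g0 + G1 + G2) * (Nat.centralBinom n : ℤ)| ≤ 4 ^ k := by
    rw [abs_of_nonneg (by positivity)]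
    have h : Nat.centralBinom n ≤ 4 ^ n := by
      have := Nat.choose_le_two_pow (2 * n) n
      rw [pow_mul] at this
      exact this
    have h' : (Nat.centralBinom n : ℤ) ≤ 4 ^ n := by exact_mod_cast h
    calc (4 : ℤ) ^ (g0 + G1 + G2) * (Nat.centralBinom n : ℤ) ≤ 4 ^ (g0 + G1 + G2) * 4 ^ n := by gcongr
      _ = 4 ^ k := by rw [← pow_add]; congr 1; omega
  have b6 : |(a * b + 1) ^ (G1 + G2)| ≤ (q * (b + 1)) ^ k := by
    have h1 : 0 < a * b := by positivity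
    rw [abs_pow, abs_of_pos (by linarith)]
    have h2 : a * b + 1 ≤ q * (b + 1) := by nlinarith
    calc (a * b + 1) ^ (G1 + G2) ≤ (q * (b + 1)) ^ (G1 + G2) := by gcongr
      _ ≤ _ := pow_le_pow_right₀ (by linarith) (by omega)
  rw [abs_mul, abs_mul, abs_mul, abs_mul, abs_mul, abs_mul]
  calc _ ≤ q ^ k * (2 ^ (5 * k) * 4 ^ k * (q * (b + 1)) ^ k * q ^ k * q ^ k * q ^ (2 * k)) := by
        gcongr
    _ = _ := by
      rw [show (4 : ℤ) = 2 ^ 2 by norm_num]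
      simp only [mul_pow, ← pow_mul]
      ring

lemma node_arith (a a' a'' b q : ℤ) (ha : 0 < a) (ha' : 0 < a') (ha'' : 0 < a'') (hq : a ≤ q)
    (hq' : a' ≤ q) (hq'' : a'' ≤ q) (hb : 0 < b) (h1 : a ≠ a') (h2 : a ≠ a'') (k e0 e1 e2 : ℕ)
    (hk : 1 ≤ k) (he : e0 + e1 + e2 = 1) (w d1 d2 : ℝ) (hw : w = ((a : ℝ) * b + 1) / a)
    (hd1 : d1 = ((a : ℝ) - a') / (a * a')) (hd2 : d2 = ((a : ℝ) - a'') / (a * a'')) :
    Gd a ((2 ^ 10 * ((b : ℝ) + 1) * q ^ 6) ^ k)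
      (Sc k a a' a'' * (rho w (UU w d1 d2 k (k + e1) (k + e2)) (k + e0) / w)) := by
  have hexp : Sc k a a' a'' * (rho w (UU w d1 d2 k (k + e1) (k + e2)) (k + e0) / w) =
      ∑ n ∈ Finset.range (k + e0), ∑ p ∈ Finset.HasAntidiagonal.antidiagonal (k + e0 - 1 - n),
        ∑ r ∈ Finset.HasAntidiagonal.antidiagonal p.1, Sc k a a' a'' *
          (((X + C (-w)) ^ (k + 1) : ℝ[X]).coeff r.1 * PowerSeries.coeff r.2 (inv1 d1 (k + e1)) *
            PowerSeries.coeff p.2 (inv1 d2 (k + e2)) * kap n / w ^ n / w) := by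
    simp only [rho, UU, PowerSeries.coeff_mul, Finset.sum_mul, Finset.mul_sum, Finset.sum_div,
      Polynomial.coeff_coe]
  have hb' : (0 : ℝ) < b := by exact_mod_cast hb
  have hq0 : (0 : ℝ) < q := by exact_mod_cast (by linarith : 0 < q)
  have hM : (2 ^ 10 * ((b : ℝ) + 1) * q ^ 6) ^ k = ((2 ^ k : ℕ) : ℝ) * (((2 ^ k : ℕ) : ℝ) *
      (((2 ^ k : ℕ) : ℝ) * (2 ^ 7 * ((b : ℝ) + 1) * q ^ 6) ^ k)) := by
    push_cast
    simp only [← mul_pow]
    congr 1; ring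
  have h2k : k + 1 ≤ 2 ^ k := Nat.lt_two_pow_self
  rw [hexp, hM]
  refine Gd.sum _ _ (by positivity) _ _ _ (by simp; omega) fun n hn => ?_
  refine Gd.sum _ _ (by positivity) _ _ _ (by simp; omega) fun p hp => ?_
  have hn' := Finset.mem_range.mp hn
  have hp' := Finset.HasAntidiagonal.mem_antidiagonal.mp hp
  refine Gd.sum _ _ (by positivity) _ _ _ (by simp; omega) fun r hr => ?_
  have hr' := Finset.HasAntidiagonal.mem_antidiagonal.mp hr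
  obtain ⟨g0, g1⟩ := r
  obtain ⟨p1, g2⟩ := p
  simp only at hp' hr' ⊢
  have hkk : k = g0 + n + (e1 + g1) + (e2 + g2) := by omega
  set G1 := e1 + g1 with hG1
  set G2 := e2 + g2 with hG2
  set c : ℤ := (-1) ^ (n + 1 + G1 + G2) * ((k + 1).choose g0 : ℤ) *
    (((k + e1 - 1 + g1).choose (k + e1 - 1) : ℤ) * (-1) ^ g1) *
    (((k + e2 - 1 + g2).choose (k + e2 - 1) : ℤ) * (-1) ^ g2) with hc
  have hcb : |c| ≤ 2 ^ (5 * k) := by
    have u0 : ((k + 1).choose g0 : ℤ) ≤ 2 ^ (k + 1) := by exact_mod_cast Nat.choose_le_two_pow _ _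
    have u1 : ((k + e1 - 1 + g1).choose (k + e1 - 1) : ℤ) ≤ 2 ^ (k + e1 - 1 + g1) := by
      exact_mod_cast Nat.choose_le_two_pow _ _
    have u2 : ((k + e2 - 1 + g2).choose (k + e2 - 1) : ℤ) ≤ 2 ^ (k + e2 - 1 + g2) := by
      exact_mod_cast Nat.choose_le_two_pow _ _
    simp only [hc, abs_mul, abs_pow, abs_neg, abs_one, one_pow, one_mul, mul_one, Nat.abs_cast]
    calc _ ≤ (2 : ℤ) ^ (k + 1) * 2 ^ (k + e1 - 1 + g1) * 2 ^ (k + e2 - 1 + g2) := by gcongr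
      _ = 2 ^ (k + 1 + (k + e1 - 1 + g1) + (k + e2 - 1 + g2)) := by rw [← pow_add, ← pow_add]
      _ ≤ _ := pow_le_pow_right₀ (by norm_num) (by omega)
  have ha0 : (a : ℝ) ≠ 0 := by exact_mod_cast ha.ne'
  have ha1 : (a' : ℝ) ≠ 0 := by exact_mod_cast ha'.ne'
  have ha2 : (a'' : ℝ) ≠ 0 := by exact_mod_cast ha''.ne'
  have hx1 : (a : ℝ) - a' ≠ 0 := by exact_mod_cast sub_ne_zero.mpr h1
  have hx2 : (a : ℝ) - a'' ≠ 0 := by exact_mod_cast sub_ne_zero.mpr h2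
  have hR : (a : ℝ) * b + 1 ≠ 0 := by
    have : (0 : ℝ) < a := by exact_mod_cast ha
    positivity
  have te := term_eq a a' a'' ((a : ℝ) * b + 1) ha0 ha1 ha2 hx1 hx2 hR g0 n G1 G2 c
    (Nat.centralBinom n)
  rw [← hkk, ← hw, ← hd1, ← hd2] at te
  have ti := term_int a a' a'' b q ha ha' ha'' hq hq' hq'' hb g0 n G1 G2 k hkk c hcb
  have hterm : ((X + C (-w)) ^ (k + 1) : ℝ[X]).coeff g0 * PowerSeries.coeff g1 (inv1 d1 (k + e1)) *
      PowerSeries.coeff g2 (inv1 d2 (k + e2)) * kap n / w ^ n / w =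
      c * w ^ (n + 1 + G1 + G2) * (1 / d1) ^ (k + G1) * (1 / d2) ^ (k + G2) *
        (Nat.centralBinom n / 4 ^ n) / w ^ n / w := by
    rw [coeff_X_add_C_pow, show k + 1 - g0 = n + 1 + G1 + G2 by omega, neg_pow w]
    simp only [inv1, PowerSeries.coeff_mk, kap, hc, hG1, hG2, add_assoc]
    push_cast
    ring
  rw [hterm, te]
  constructor
  · obtain ⟨k', hk'⟩ : ∃ k', k = k' + 1 := ⟨k - 1, by omega⟩
    refine ⟨a ^ k' * (c * (4 ^ (g0 + G1 + G2) * (Nat.centralBinom n : ℤ)) * (a * b + 1) ^ (G1 + G2) *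
      (a' ^ G1 * (a - a') ^ (g0 + n + G2)) * (a'' ^ G2 * (a - a'') ^ (g0 + n + G1)) *
      (a' - a'') ^ (2 * k)), ?_⟩
    have : (a : ℝ) ^ k = a * a ^ k' := by rw [hk', pow_succ']
    rw [this]
    push_cast
    ring
  · exact_mod_cast ti

end Pool.Agent.P.MP_719a5e_nt
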