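import Pool.Agent.P.MP_719a5e_nt.Row

set_option autoImplicit false

namespace Pool.Agent.P.MP_719a5e_nt

open Filter Topology Polynomial

lemma indep (w1 w2 w3 : ℝ) (o1 : 0 < w1) (o2 : 0 < w2) (o3 : 0 < w3) (n12 : w1 ≠ w2)
    (n13 : w1 ≠ w3) (n23 : w2 ≠ w3) (k : ℕ) (hk : 1 ≤ k) (S : ℝ[X]) (l1 l2 l3 : ℝ)
    (h : ∀ τ : ℝ, HasDerivAt
      (fun τ : ℝ => τ * S.eval (τ ^ 2) / ((τ ^ 2 + w1) * (τ ^ 2 + w2) * (τ ^ 2 + w3)) ^ k)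
      ((τ ^ 2) ^ (k + 1) * (l1 * (τ ^ 2 + w2) * (τ ^ 2 + w3) + l2 * (τ ^ 2 + w1) * (τ ^ 2 + w3)
        + l3 * (τ ^ 2 + w1) * (τ ^ 2 + w2)) / ((τ ^ 2 + w1) * (τ ^ 2 + w2) * (τ ^ 2 + w3)) ^ (k + 1)) τ) :
    l1 = 0 ∧ l2 = 0 ∧ l3 = 0 := by
  set B : ℝ[X] := C l1 * (X + C w2) * (X + C w3) + C l2 * (X + C w1) * (X + C w3)
    + C l3 * (X + C w1) * (X + C w2) with hB
  have hBd : B.natDegree ≤ 2 := by rw [hB]; compute_degree
  obtain ⟨j, rfl⟩ : ∃ j, k = j + 1 := ⟨k - 1, by omega⟩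
  have hid : X ^ (j + 1 + 1) * B = (S + 2 * X * derivative S) *
      (X ^ 3 + C (w1 + w2 + w3) * X ^ 2 + C (w1 * w2 + w1 * w3 + w2 * w3) * X + C (w1 * w2 * w3))
      - 2 * ((j + 1 : ℕ) : ℝ[X]) * X * S * (3 * X ^ 2 + 2 * C (w1 + w2 + w3) * X
        + C (w1 * w2 + w1 * w3 + w2 * w3)) := by
    apply eq_of_infinite_eval_eq
    refine (Set.Ici_infinite (0 : ℝ)).mono fun s hs => ?_
    obtain ⟨τ, rfl⟩ : ∃ τ : ℝ, s = τ ^ 2 := ⟨√s, (Real.sq_sqrt hs).symm⟩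
    have y1 : τ ^ 2 + w1 ≠ 0 := by positivity
    have y2 : τ ^ 2 + w2 ≠ 0 := by positivity
    have y3 : τ ^ 2 + w3 ≠ 0 := by positivity
    have hY : (τ ^ 2 + w1) * (τ ^ 2 + w2) * (τ ^ 2 + w3) ≠ 0 := by positivity
    have d0 : HasDerivAt (fun τ : ℝ => τ ^ 2) (2 * τ) τ := by simpa using hasDerivAt_pow 2 τ
    have d1 : HasDerivAt (fun τ : ℝ => S.eval (τ ^ 2)) ((derivative S).eval (τ ^ 2) * (2 * τ)) τ :=
      HasDerivAt.comp (h₂ := fun x => S.eval x) (h := fun τ : ℝ => τ ^ 2) τ (S.hasDerivAt (τ ^ 2)) d0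
    have d2 := (((d0.add_const w1).mul (d0.add_const w2)).mul (d0.add_const w3)).pow (j + 1)
    have d3 := ((hasDerivAt_id τ).mul d1).div d2 (pow_ne_zero _ hY)
    have e := (h τ).unique d3
    simp only [Pi.mul_apply, Pi.pow_apply, id, Nat.add_sub_cancel] at e
    rw [div_eq_div_iff (pow_ne_zero _ hY) (pow_ne_zero _ (pow_ne_zero _ hY))] at e
    simp only [Set.mem_ofPred_eq, hB, eval_mul, eval_add, eval_sub, eval_pow, eval_X, eval_C,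
      eval_ofNat, eval_natCast]
    have hP := pow_ne_zero (2 * j + 2) hY
    apply mul_right_cancel₀ hP
    have e1 : ((τ ^ 2 + w1) * (τ ^ 2 + w2) * (τ ^ 2 + w3)) ^ (j + 1) =
        ((τ ^ 2 + w1) * (τ ^ 2 + w2) * (τ ^ 2 + w3)) ^ j *
          ((τ ^ 2 + w1) * (τ ^ 2 + w2) * (τ ^ 2 + w3)) := pow_succ _ _
    have e2 : ((τ ^ 2 + w1) * (τ ^ 2 + w2) * (τ ^ 2 + w3)) ^ (j + 1 + 1) =
        ((τ ^ 2 + w1) * (τ ^ 2 + w2) * (τ ^ 2 + w3)) ^ j *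
          ((τ ^ 2 + w1) * (τ ^ 2 + w2) * (τ ^ 2 + w3)) ^ 2 := by rw [← pow_add]
    have e3 : ((τ ^ 2 + w1) * (τ ^ 2 + w2) * (τ ^ 2 + w3)) ^ (2 * j + 2) =
        (((τ ^ 2 + w1) * (τ ^ 2 + w2) * (τ ^ 2 + w3)) ^ j) ^ 2 *
          ((τ ^ 2 + w1) * (τ ^ 2 + w2) * (τ ^ 2 + w3)) ^ 2 := by
      rw [← pow_mul, ← pow_add]; congr 1; ring
    rw [e2, e1] at e
    rw [e3]
    generalize ((τ ^ 2 + w1) * (τ ^ 2 + w2) * (τ ^ 2 + w3)) ^ j = W at *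
    generalize (τ ^ 2) ^ (j + 1 + 1) = T at *
    linear_combination e
  have hS := lemB (j + 1) _ _ _ (by positivity) S B hBd hid
  rw [hS] at hid
  simp only [derivative_zero, mul_zero, add_zero, zero_mul, sub_zero] at hid
  have hB0 : B = 0 := (mul_eq_zero.mp hid).resolve_left (pow_ne_zero _ X_ne_zero)
  have v1 := congrArg (eval (-w1)) hB0
  have v2 := congrArg (eval (-w2)) hB0
  have v3 := congrArg (eval (-w3)) hB0
  simp only [hB, eval_mul, eval_add, eval_X, eval_C, eval_zero, neg_add_cancel, mul_zero, zero_mul,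
    add_zero, zero_add, mul_eq_zero] at v1 v2 v3
  refine ⟨?_, ?_, ?_⟩
  · rcases v1 with (h | h) | h
    · exact h
    · exact absurd (by linarith) n12
    · exact absurd (by linarith) n13
  · rcases v2 with (h | h) | h
    · exact h
    · exact absurd (by linarith) n12
    · exact absurd (by linarith) n23
  · rcases v3 with (h | h) | h
    · exact h
    · exact absurd (by linarith) n13
    · exact absurd (by linarith) n23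

lemma lin3 (x1 x2 x3 y1 y2 y3 z1 z2 z3 v1 v2 v3 : ℝ) (hv : v1 ≠ 0)
    (hx : x1 * v1 + x2 * v2 + x3 * v3 = 0) (hy : y1 * v1 + y2 * v2 + y3 * v3 = 0)
    (hz : z1 * v1 + z2 * v2 + z3 * v3 = 0) :
    ∃ l1 l2 l3 : ℝ, ¬ (l1 = 0 ∧ l2 = 0 ∧ l3 = 0) ∧ l1 * x1 + l2 * y1 + l3 * z1 = 0 ∧
      l1 * x2 + l2 * y2 + l3 * z2 = 0 ∧ l1 * x3 + l2 * y3 + l3 * z3 = 0 := by
  have hdet : (!![x1, x2, x3; y1, y2, y3; z1, z2, z3] : Matrix (Fin 3) (Fin 3) ℝ).det = 0 := by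
    rw [← Matrix.exists_mulVec_eq_zero_iff]
    refine ⟨![v1, v2, v3], fun h => hv (by simpa using congrFun h 0), ?_⟩
    ext i
    fin_cases i <;> simp [Matrix.mulVec, dotProduct, Fin.sum_univ_three, hx, hy, hz]
  obtain ⟨l, hl, h⟩ := Matrix.exists_vecMul_eq_zero_iff.mpr hdet
  refine ⟨l 0, l 1, l 2, fun ⟨a, b, c⟩ => hl ?_, ?_, ?_, ?_⟩
  · ext i; fin_cases i <;> simp [a, b, c]
  · simpa [Matrix.vecMul, dotProduct, Fin.sum_univ_three] using congrFun h 0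
  · simpa [Matrix.vecMul, dotProduct, Fin.sum_univ_three] using congrFun h 1
  · simpa [Matrix.vecMul, dotProduct, Fin.sum_univ_three] using congrFun h 2

lemma root_prod (a b c r s : ℝ) (ha : 0 < a) (hr : 0 < r) (hs : 0 < s) (e : r ^ 2 = a * b + 1)
    (f : s ^ 2 = a * c + 1) : r * s / a = √((a * b + 1) / a) * √((a * c + 1) / a) := by
  rw [← e, ← f, ← Real.sqrt_mul (by positivity)]
  have : r ^ 2 / a * (s ^ 2 / a) = (r * s / a) ^ 2 := by field_simp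
  rw [this, Real.sqrt_sq (by positivity)]

lemma phi_near (a c : ℝ) (ha : 1 ≤ a) (hc : 0 < c) :
    |√((a * c + 1) / a) - √c| ≤ 1 / √c := by
  have ht : 0 < √c := Real.sqrt_pos.mpr hc
  have h1 : c ≤ (a * c + 1) / a := by rw [le_div_iff₀ (by linarith)]; linarith
  have h2 : (a * c + 1) / a ≤ c + 1 := by rw [div_le_iff₀ (by linarith)]; linarith
  have h3 : √c ≤ √((a * c + 1) / a) := Real.sqrt_le_sqrt h1
  rw [abs_of_nonneg (by linarith), sub_le_iff_le_add]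
  apply Real.sqrt_le_iff.mpr
  refine ⟨by positivity, ?_⟩
  have h4 : (1 / √c + √c) ^ 2 = (1 / √c) ^ 2 + 2 + √c ^ 2 := by field_simp; ring
  rw [h4, Real.sq_sqrt hc.le]
  have : 0 ≤ (1 / √c) ^ 2 := by positivity
  linarith

/-- the inequality given by one nonvanishing linear form -/
lemma form_ineq (a1 a2 a3 r1 r2 r3 s1 s2 s3 : ℤ) (p1 : 0 < a1) (p2 : 0 < a2) (p3 : 0 < a3)
    (σ M I t u π1 π2 π3 x1 x2 x3 φ1 φ2 φ3 : ℝ) (hσ : 0 < σ) (ht : 0 < t)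
    (G1 : Gd a1 M (σ * π1)) (G2 : Gd a2 M (σ * π2)) (G3 : Gd a3 M (σ * π3))
    (v1 : (r1 : ℝ) * s1 / a1 = x1 * φ1) (v2 : (r2 : ℝ) * s2 / a2 = x2 * φ2)
    (v3 : (r3 : ℝ) * s3 / a3 = x3 * φ3)
    (u1 : |x1| ≤ u) (u2 : |x2| ≤ u) (u3 : |x3| ≤ u)
    (f1 : |φ1 - t| ≤ 1 / t) (f2 : |φ2 - t| ≤ 1 / t) (f3 : |φ3 - t| ≤ 1 / t)
    (I0 : 0 ≤ π1 * x1 + π2 * x2 + π3 * x3) (I1 : π1 * x1 + π2 * x2 + π3 * x3 ≤ I)
    (hne : π1 * (x1 * φ1) + π2 * (x2 * φ2) + π3 * (x3 * φ3) ≠ 0) :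
    1 ≤ σ * t * I + 3 * (M * u * (1 / t)) := by
  obtain ⟨⟨z1, e1⟩, m1⟩ := G1
  obtain ⟨⟨z2, e2⟩, m2⟩ := G2
  obtain ⟨⟨z3, e3⟩, m3⟩ := G3
  have c1 : (a1 : ℝ) ≠ 0 := by exact_mod_cast p1.ne'
  have c2 : (a2 : ℝ) ≠ 0 := by exact_mod_cast p2.ne'
  have c3 : (a3 : ℝ) ≠ 0 := by exact_mod_cast p3.ne'
  have hint : σ * (π1 * (x1 * φ1) + π2 * (x2 * φ2) + π3 * (x3 * φ3))
      = ((z1 * r1 * s1 + z2 * r2 * s2 + z3 * r3 * s3 : ℤ) : ℝ) := by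
    rw [← v1, ← v2, ← v3]
    calc _ = (σ * π1) * (r1 * s1 / a1) + (σ * π2) * (r2 * s2 / a2) + (σ * π3) * (r3 * s3 / a3) := by
          ring
      _ = _ := by rw [e1, e2, e3]; push_cast; field_simp
  have hz : (z1 * r1 * s1 + z2 * r2 * s2 + z3 * r3 * s3 : ℤ) ≠ 0 := by
    intro h
    rw [h] at hint
    exact hne ((mul_eq_zero.mp (by simpa using hint)).resolve_left hσ.ne')
  have h1 : (1 : ℝ) ≤ |σ * (π1 * (x1 * φ1) + π2 * (x2 * φ2) + π3 * (x3 * φ3))| := by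
    rw [hint]; exact_mod_cast Int.one_le_abs hz
  have hM : 0 ≤ M := (abs_nonneg _).trans m1
  have hu : 0 ≤ u := (abs_nonneg _).trans u1
  have tb : ∀ y x d : ℝ, |y| ≤ M → |x| ≤ u → |d| ≤ 1 / t → |y * x * d| ≤ M * u * (1 / t) := by
    intro y x d hy hx hd
    rw [abs_mul, abs_mul]; gcongr
  have hsplit : σ * (π1 * (x1 * φ1) + π2 * (x2 * φ2) + π3 * (x3 * φ3)) =
      σ * t * (π1 * x1 + π2 * x2 + π3 * x3) + (σ * π1) * x1 * (φ1 - t) + (σ * π2) * x2 * (φ2 - t)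
        + (σ * π3) * x3 * (φ3 - t) := by ring
  have t1 := abs_le.mp (tb _ _ _ m1 u1 f1)
  have t2 := abs_le.mp (tb _ _ _ m2 u2 f2)
  have t3 := abs_le.mp (tb _ _ _ m3 u3 f3)
  have t0 : 0 ≤ σ * t * (π1 * x1 + π2 * x2 + π3 * x3) := by positivity
  have t4 : σ * t * (π1 * x1 + π2 * x2 + π3 * x3) ≤ σ * t * I := by gcongr
  rw [hsplit] at h1
  refine h1.trans (abs_le.mpr ⟨?_, ?_⟩) <;> linarith [t1.1, t1.2, t2.1, t2.2, t3.1, t3.2]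

end Pool.Agent.P.MP_719a5e_nt
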