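import Pool.Agent.P.MP_719a5e_nt.Main

set_option autoImplicit false

namespace Pool.Agent.P.MP_719a5e_nt

lemma root_of (a b : ℕ) (h : IsSquare (a * b + 1)) : ∃ r : ℤ, 0 < r ∧ r ^ 2 = (a : ℤ) * b + 1 := by
  obtain ⟨r, hr⟩ := h
  refine ⟨r, ?_, ?_⟩
  · have : r ≠ 0 := by rintro rfl; omega
    exact_mod_cast Nat.pos_of_ne_zero this
  · rw [sq]; exact_mod_cast hr.symm

lemma grid_gap (a b : Fin 3 → ℕ) (ha : StrictMono a) (hb : StrictMono b) (a0 : 0 < a 0) (b0 : 0 < b 0)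
    (h : ∀ i j, IsSquare (a i * b j + 1)) :
    256 * ((a 0 : ℤ) * a 1 * a 2 * (b 0 * b 1 * b 2)) ^ 3 <
      (((a 1 : ℤ) - a 0) * (a 2 - a 0) * (a 2 - a 1) *
        (((b 1 : ℤ) - b 0) * (b 2 - b 0) * (b 2 - b 1))) ^ 2 := by
  choose r hr using fun i j => root_of _ _ (h i j)
  exact three_gap _ _ _ _ _ _ (r 0 0) (r 1 0) (r 2 0) (r 0 1) (r 1 1) (r 2 1) (r 0 2) (r 1 2) (r 2 2)
    (by exact_mod_cast a0) (by exact_mod_cast ha (by decide : (0 : Fin 3) < 1))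
    (by exact_mod_cast ha (by decide : (1 : Fin 3) < 2))
    (by exact_mod_cast b0) (by exact_mod_cast hb (by decide : (0 : Fin 3) < 1))
    (by exact_mod_cast hb (by decide : (1 : Fin 3) < 2))
    (hr _ _).1 (hr _ _).1 (hr _ _).1 (hr _ _).1 (hr _ _).1 (hr _ _).1 (hr _ _).1 (hr _ _).1 (hr _ _).1
    (hr _ _).2 (hr _ _).2 (hr _ _).2 (hr _ _).2 (hr _ _).2 (hr _ _).2 (hr _ _).2 (hr _ _).2 (hr _ _).2

lemma cube_step (q x y L : ℤ) (hL : 0 ≤ L) (h1 : L ≤ x) (h2 : 64 * x ^ 3 < q ^ 2 * y) :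
    64 * L ^ 3 < q ^ 2 * y := lt_of_le_of_lt (by gcongr) h2

lemma no_eight (a : Fin 3 → ℕ) (ha : StrictMono a) (a0 : 0 < a 0) (c : Fin 8 → ℕ) (hc : StrictMono c)
    (hq : a 2 ≤ c 0) (h : ∀ i j, IsSquare (a i * c j + 1)) : False := by
  choose r hr using fun i j => root_of _ _ (h i j)
  have A0 : (0 : ℤ) < a 0 := by exact_mod_cast a0
  have A01 : (a 0 : ℤ) < a 1 := by exact_mod_cast ha (by decide : (0 : Fin 3) < 1)
  have A12 : (a 1 : ℤ) < a 2 := by exact_mod_cast ha (by decide : (1 : Fin 3) < 2)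
  have Q0 : (a 2 : ℤ) ≤ c 0 := by exact_mod_cast hq
  have C : ∀ i j : Fin 8, i < j → (c i : ℤ) < c j := fun i j hij => by exact_mod_cast hc hij
  have hq0 : (0 : ℤ) < a 2 := by linarith
  have P : ∀ j : Fin 8, (0 : ℤ) < c j := fun j => by
    have : (c 0 : ℤ) ≤ c j := by exact_mod_cast hc.monotone (Fin.zero_le j)
    linarith
  have two : ∀ i j : Fin 8, i < j → 64 * (c i : ℤ) ^ 3 < (a 2 : ℤ) ^ 2 * c j := fun i j hij =>
    two_gap _ _ _ _ _ (r 0 i) (r 1 i) (r 2 i) (r 0 j) (r 1 j) (r 2 j) A0 A01 A12 (P i) (C i j hij)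
      (hr _ _).1 (hr _ _).1 (hr _ _).1 (hr _ _).1 (hr _ _).1 (hr _ _).1
      (hr _ _).2 (hr _ _).2 (hr _ _).2 (hr _ _).2 (hr _ _).2 (hr _ _).2
  have C01 := C 0 1 (by decide)
  have C12 := C 1 2 (by decide)
  have three := three_gap _ _ _ _ _ _ (r 0 0) (r 1 0) (r 2 0) (r 0 1) (r 1 1) (r 2 1) (r 0 2) (r 1 2)
    (r 2 2) A0 A01 A12 (P 0) C01 C12
    (hr _ _).1 (hr _ _).1 (hr _ _).1 (hr _ _).1 (hr _ _).1 (hr _ _).1 (hr _ _).1 (hr _ _).1 (hr _ _).1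
    (hr _ _).2 (hr _ _).2 (hr _ _).2 (hr _ _).2 (hr _ _).2 (hr _ _).2 (hr _ _).2 (hr _ _).2 (hr _ _).2
  have ex := fun hb => excl _ _ _ _ _ (r 0 4) (r 1 4) (r 2 4) (r 0 7) (r 1 7) (r 2 7) A0 A01 A12 hb (P 7)
      (hr _ _).1 (hr _ _).1 (hr _ _).1 (hr _ _).1 (hr _ _).1 (hr _ _).1
      (hr _ _).2 (hr _ _).2 (hr _ _).2 (hr _ _).2 (hr _ _).2 (hr _ _).2
  have t23 := two 2 3 (by decide)
  have t34 := two 3 4 (by decide)
  have t45 := two 4 5 (by decide)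
  have t56 := two 5 6 (by decide)
  have t67 := two 6 7 (by decide)
  have P0 := P 0
  have P4 := P 4
  have P5 := P 5
  have P6 := P 6
  have P7 := P 7
  clear two C P hr h
  generalize (a 0 : ℤ) = a1 at *
  generalize (a 1 : ℤ) = a2 at *
  generalize (a 2 : ℤ) = q at *
  generalize (c 0 : ℤ) = c0 at *
  generalize (c 1 : ℤ) = c1 at *
  generalize (c 2 : ℤ) = c2 at *
  generalize (c 3 : ℤ) = c3 at *
  generalize (c 4 : ℤ) = c4 at *
  generalize (c 5 : ℤ) = c5 at *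
  generalize (c 6 : ℤ) = c6 at *
  generalize (c 7 : ℤ) = c7 at *
  have ha2 : 0 < a2 := by linarith
  have P1 : 0 < c1 := by linarith
  have P2 : 0 < c2 := by linarith
  have b2 : 2 ^ 8 * q ^ 3 ≤ c2 := by
    have x1 : 0 < a2 - a1 := by linarith
    have x2 : 0 < q - a1 := by linarith
    have x3 : 0 < q - a2 := by linarith
    have x4 : 0 < c1 - c0 := by linarith
    have x5 : 0 < c2 - c0 := by linarith
    have x6 : 0 < c2 - c1 := by linarith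
    have hX : 0 < a2 ^ 2 * q ^ 4 * c1 ^ 2 * c2 ^ 3 := by positivity
    have h1 : (2 ^ 8 * q ^ 3) * (a2 ^ 2 * q ^ 4 * c1 ^ 2 * c2 ^ 3)
        < c2 * (a2 ^ 2 * q ^ 4 * c1 ^ 2 * c2 ^ 3) := by
      calc (2 ^ 8 * q ^ 3) * (a2 ^ 2 * q ^ 4 * c1 ^ 2 * c2 ^ 3)
          = 256 * (1 ^ 3 * (a2 ^ 2 * 1) * q ^ 3 * (q ^ 3 * (c1 ^ 2 * q) * c2 ^ 3)) := by ring
        _ ≤ 256 * (a1 ^ 3 * (a2 ^ 2 * a2) * q ^ 3 * (c0 ^ 3 * (c1 ^ 2 * c1) * c2 ^ 3)) := by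
          gcongr <;> linarith
        _ = 256 * (a1 * a2 * q * (c0 * c1 * c2)) ^ 3 := by ring
        _ < _ := three
        _ ≤ (a2 * q * q * (c1 * c2 * c2)) ^ 2 := by gcongr <;> linarith
        _ = _ := by ring
    exact (lt_of_mul_lt_mul_right h1 hX.le).le
  have hq2 : 0 < q ^ 2 := by positivity
  have b3 : 2 ^ 30 * q ^ 7 ≤ c3 := by
    have := cube_step q c2 c3 _ (by positivity) b2 t23
    have e : 64 * (2 ^ 8 * q ^ 3) ^ 3 = q ^ 2 * (2 ^ 30 * q ^ 7) := by ring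
    rw [e] at this
    exact (lt_of_mul_lt_mul_left this hq2.le).le
  have b4 : 2 ^ 96 * q ^ 19 ≤ c4 := by
    have := cube_step q c3 c4 _ (by positivity) b3 t34
    have e : 64 * (2 ^ 30 * q ^ 7) ^ 3 = q ^ 2 * (2 ^ 96 * q ^ 19) := by ring
    rw [e] at this
    exact (lt_of_mul_lt_mul_left this hq2.le).le
  have hq1 : 1 ≤ q := hq0
  have q18 : q ^ 18 ≤ q ^ 19 := pow_le_pow_right₀ hq1 (by norm_num)
  have q19 : 0 < q ^ 18 := by positivity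
  have E := ex (by linarith)
  have s5 : c4 ^ 3 ≤ q ^ 2 * c5 := by
    have : 0 < c4 ^ 3 := by positivity
    linarith
  have s6 : c5 ^ 3 ≤ q ^ 2 * c6 := by
    have : 0 < c5 ^ 3 := by positivity
    linarith
  have s7 : c6 ^ 3 ≤ q ^ 2 * c7 := by
    have : 0 < c6 ^ 3 := by positivity
    linarith
  have u6 : c4 ^ 9 ≤ q ^ 8 * c6 := by
    calc c4 ^ 9 = (c4 ^ 3) ^ 3 := by ring
      _ ≤ (q ^ 2 * c5) ^ 3 := by gcongr
      _ = q ^ 6 * c5 ^ 3 := by ring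
      _ ≤ q ^ 6 * (q ^ 2 * c6) := by gcongr
      _ = _ := by ring
  have u7 : c4 ^ 27 ≤ q ^ 26 * c7 := by
    calc c4 ^ 27 = (c4 ^ 9) ^ 3 := by ring
      _ ≤ (q ^ 8 * c6) ^ 3 := by gcongr
      _ = q ^ 24 * c6 ^ 3 := by ring
      _ ≤ q ^ 24 * (q ^ 2 * c7) := by gcongr
      _ = _ := by ring
  have u8 : q ^ 26 ≤ c4 ^ 2 := by
    calc q ^ 26 ≤ q ^ 38 := pow_le_pow_right₀ hq1 (by norm_num)
      _ = (q ^ 19) ^ 2 := by ring
      _ ≤ c4 ^ 2 := by gcongr; linarith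
  have u9 : c4 ^ 27 < c4 ^ 22 := by
    calc c4 ^ 27 ≤ q ^ 26 * c7 := u7
      _ ≤ c4 ^ 2 * c7 := by gcongr
      _ < c4 ^ 2 * c4 ^ 20 := by gcongr
      _ = _ := by ring
  exact absurd (pow_le_pow_right₀ (P4 : (1 : ℤ) ≤ c4) (by norm_num : 22 ≤ 27)) (not_le.mpr u9)

theorem main :
    (∀ a b : Fin 3 → ℕ, StrictMono a → StrictMono b → 0 < a 0 → 0 < b 0 →
      (∀ i j, IsSquare (a i * b j + 1)) →
      256 * ((a 0 : ℤ) * a 1 * a 2 * (b 0 * b 1 * b 2)) ^ 3 <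
        (((a 1 : ℤ) - a 0) * (a 2 - a 0) * (a 2 - a 1) *
          (((b 1 : ℤ) - b 0) * (b 2 - b 0) * (b 2 - b 1))) ^ 2) ∧
    (∀ a : Fin 3 → ℕ, StrictMono a → 0 < a 0 → ∀ B : Finset ℕ,
      (∀ b ∈ B, a 2 ≤ b ∧ ∀ i, IsSquare (a i * b + 1)) → B.card ≤ 7) ∧
    (∀ A B : Finset ℕ, (∀ a ∈ A, 0 < a) → (∀ b ∈ B, 0 < b) →
      (∀ a ∈ A, ∀ b ∈ B, IsSquare (a * b + 1)) → min A.card B.card ≤ 9) := by
  refine ⟨grid_gap, fun a ha a0 B hB => ?_, fun A B hA hB h => ?_⟩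
  · by_contra hc
    have h8 : 8 ≤ B.card := by omega
    have hm := B.orderEmbOfCardLe_mem h8
    exact no_eight a ha a0 _ (B.orderEmbOfCardLe h8).strictMono (hB _ (hm 0)).1
      fun i j => (hB _ (hm j)).2 i
  · by_contra hc
    have hA10 : 10 ≤ A.card := by omega
    have hB10 : 10 ≤ B.card := by omega
    have mA := A.orderEmbOfCardLe_mem hA10
    have mB := B.orderEmbOfCardLe_mem hB10
    set f := A.orderEmbOfCardLe hA10
    set g := B.orderEmbOfCardLe hB10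
    have m3 : StrictMono (fun i : Fin 3 => (⟨i, by omega⟩ : Fin 10)) := fun i j hij => hij
    have m8 : StrictMono (fun i : Fin 8 => (⟨i + 2, by omega⟩ : Fin 10)) := fun i j hij =>
      Nat.add_lt_add_right hij 2
    rcases le_total (f 2) (g 2) with hle | hle
    · exact no_eight _ (f.strictMono.comp m3) (hA _ (mA _)) _ (g.strictMono.comp m8) hle
        fun i j => h _ (mA _) _ (mB _)
    · exact no_eight _ (g.strictMono.comp m3) (hB _ (mB _)) _ (f.strictMono.comp m8) hle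
        fun i j => by rw [mul_comm]; exact h _ (mA _) _ (mB _)

end Pool.Agent.P.MP_719a5e_nt
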