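import Pool.Agent.P.MP_719a5e_nt.Gap

set_option autoImplicit false

namespace Pool.Agent.P.MP_719a5e_nt

open Finset

lemma plotkin {ι : Type*} (S : Finset ι) (e : ℕ) (f : ι → ℕ) (hf : ∀ i ∈ S, f i ≤ e) :
    e * S.card ^ 2 ≤ 2 * ∑ i ∈ S, ∑ j ∈ S, (min (f i) (f j) + min (e - f i) (e - f j)) := by
  rcases Nat.eq_zero_or_pos e with rfl | he
  · simp
  have key : ∀ i ∈ S, ∀ j ∈ S, ((f i : ℤ) * f j + (e - f i) * (e - f j)) ≤
      e * ((min (f i) (f j) + min (e - f i) (e - f j) : ℕ) : ℤ) := by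
    intro i hi j hj
    have h1 := hf i hi
    have h2 := hf j hj
    have h1' : (f i : ℤ) ≤ e := by exact_mod_cast h1
    have h2' : (f j : ℤ) ≤ e := by exact_mod_cast h2
    have p1 : (0 : ℤ) ≤ f i := by positivity
    have p2 : (0 : ℤ) ≤ f j := by positivity
    rcases le_total (f i) (f j) with h | h
    · have : min (f i) (f j) + min (e - f i) (e - f j) = f i + (e - f j) := by omega
      rw [this]
      push_cast [Nat.cast_sub h2]
      nlinarith [mul_nonneg p1 (sub_nonneg.mpr h2')]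
    · have : min (f i) (f j) + min (e - f i) (e - f j) = f j + (e - f i) := by omega
      rw [this]
      push_cast [Nat.cast_sub h1]
      nlinarith [mul_nonneg p2 (sub_nonneg.mpr h1')]
  have hs : ∑ i ∈ S, ∑ j ∈ S, ((f i : ℤ) * f j + (e - f i) * (e - f j)) ≤
      e * ((∑ i ∈ S, ∑ j ∈ S, (min (f i) (f j) + min (e - f i) (e - f j)) : ℕ) : ℤ) := by
    push_cast
    rw [mul_sum]
    refine sum_le_sum fun i hi => ?_
    rw [mul_sum]
    refine sum_le_sum fun j hj => ?_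
    have := key i hi j hj
    push_cast at this
    exact this
  have hl : ∑ i ∈ S, ∑ j ∈ S, ((f i : ℤ) * f j + (e - f i) * (e - f j)) =
      (∑ i ∈ S, (f i : ℤ)) ^ 2 + (S.card * e - ∑ i ∈ S, (f i : ℤ)) ^ 2 := by
    have : (S.card : ℤ) * e - ∑ i ∈ S, (f i : ℤ) = ∑ i ∈ S, ((e : ℤ) - f i) := by
      rw [sum_sub_distrib]; simp
    rw [this, sq, sq, sum_mul_sum, sum_mul_sum, ← sum_add_distrib]
    refine sum_congr rfl fun i _ => ?_
    rw [← sum_add_distrib]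
  rw [hl] at hs
  set T : ℕ := ∑ i ∈ S, ∑ j ∈ S, (min (f i) (f j) + min (e - f i) (e - f j))
  set σ : ℤ := ∑ i ∈ S, (f i : ℤ)
  have he' : (0 : ℤ) < e := by exact_mod_cast he
  have h3 : (e : ℤ) * (e * S.card ^ 2) ≤ e * (2 * T) := by
    nlinarith [sq_nonneg (2 * σ - S.card * e)]
  have := le_of_mul_le_mul_left h3 he'
  exact_mod_cast this

lemma gcd_prod {ι : Type*} (S : Finset ι) (m : ℕ) (hm : 0 < m) (u : ι → ℕ)
    (hu : ∀ i ∈ S, u i ∣ m) :
    m ^ (S.card ^ 2) ≤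
      (∏ i ∈ S, ∏ j ∈ S, (Nat.gcd (u i) (u j) * Nat.gcd (m / u i) (m / u j))) ^ 2 := by
  have u0 : ∀ i ∈ S, u i ≠ 0 := fun i hi h => by
    have := hu i hi; rw [h, zero_dvd_iff] at this; omega
  have v0 : ∀ i ∈ S, m / u i ≠ 0 := fun i hi =>
    (Nat.div_pos (Nat.le_of_dvd hm (hu i hi)) (Nat.pos_of_ne_zero (u0 i hi))).ne'
  have g0 : ∀ i ∈ S, ∀ j ∈ S, Nat.gcd (u i) (u j) * Nat.gcd (m / u i) (m / u j) ≠ 0 :=
    fun i hi j _ => mul_ne_zero (Nat.gcd_ne_zero_left (u0 i hi)) (Nat.gcd_ne_zero_left (v0 i hi))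
  have r0 : ∀ i ∈ S, ∏ j ∈ S, (Nat.gcd (u i) (u j) * Nat.gcd (m / u i) (m / u j)) ≠ 0 :=
    fun i hi => prod_ne_zero_iff.mpr (g0 i hi)
  have P0 : (∏ i ∈ S, ∏ j ∈ S, (Nat.gcd (u i) (u j) * Nat.gcd (m / u i) (m / u j))) ≠ 0 :=
    prod_ne_zero_iff.mpr r0
  refine Nat.le_of_dvd (by positivity) ?_
  rw [← Nat.factorization_prime_le_iff_dvd (by positivity) (by positivity)]
  intro p _
  rw [Nat.factorization_pow, Nat.factorization_pow, Nat.factorization_prod r0]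
  simp only [Finsupp.smul_apply, smul_eq_mul, Finsupp.coe_finset_sum, Finset.sum_apply]
  have h := plotkin S (m.factorization p) (fun i => (u i).factorization p) fun i hi =>
    (Nat.factorization_le_iff_dvd (u0 i hi) hm.ne').mpr (hu i hi) p
  rw [mul_comm]
  refine h.trans (le_of_eq ?_)
  congr 1
  refine sum_congr rfl fun i hi => ?_
  rw [Nat.factorization_prod (g0 i hi)]
  simp only [Finsupp.coe_finset_sum, Finset.sum_apply]
  refine sum_congr rfl fun j hj => ?_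
  rw [Nat.factorization_mul (Nat.gcd_ne_zero_left (u0 i hi)) (Nat.gcd_ne_zero_left (v0 i hi)),
    Nat.factorization_gcd (u0 i hi) (u0 j hj), Nat.factorization_gcd (v0 i hi) (v0 j hj),
    Nat.factorization_div (hu i hi), Nat.factorization_div (hu j hj)]
  simp

lemma pair_le (p q b c x y x' y' : ℕ) (hp : 0 < p) (hpq : p < q) (hb : 0 < b) (hc : 0 < c)
    (hbc : b ≠ c) (ρ : ℕ) (h1 : b ≤ ρ * c) (h2 : c ≤ ρ * b)
    (ex : x * x = p * b + 1) (ey : y * y = q * b + 1)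
    (ex' : x' * x' = p * c + 1) (ey' : y' * y' = q * c + 1) (u v u' v' : ℕ)
    (hu : (u : ℤ) ∣ (y : ℤ) - x) (hv : (v : ℤ) ∣ (y : ℤ) + x)
    (hu' : (u' : ℤ) ∣ (y' : ℤ) - x') (hv' : (v' : ℤ) ∣ (y' : ℤ) + x') :
    (Nat.gcd u u' * Nat.gcd v v') ^ 2 * (p * q) ≤ (q - p) ^ 2 * ρ := by
  have ex1 : (x : ℤ) ^ 2 = p * b + 1 := by rw [sq]; exact_mod_cast ex
  have ey1 : (y : ℤ) ^ 2 = q * b + 1 := by rw [sq]; exact_mod_cast ey
  have ex2 : (x' : ℤ) ^ 2 = p * c + 1 := by rw [sq]; exact_mod_cast ex'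
  have ey2 : (y' : ℤ) ^ 2 = q * c + 1 := by rw [sq]; exact_mod_cast ey'
  have pos : ∀ t n : ℕ, t * t = n + 1 → (0 : ℤ) < t := fun t n h => by
    have : t ≠ 0 := by rintro rfl; omega
    exact_mod_cast Nat.pos_of_ne_zero this
  have hP : (0 : ℤ) < p := by exact_mod_cast hp
  have hQ : (p : ℤ) < q := by exact_mod_cast hpq
  have hB : (0 : ℤ) < b := by exact_mod_cast hb
  have hC : (0 : ℤ) < c := by exact_mod_cast hc
  have hs := cross_sq p q b c x y x' y' hP (by linarith) hB hC (pos _ _ ex) (pos _ _ ey)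
    (pos _ _ ex') (pos _ _ ey') ex1 ey1 ex2 ey2
  set g : ℕ := Nat.gcd u u' * Nat.gcd v v' with hg
  have d1 : (g : ℤ) ∣ ((y : ℤ) - x) * (y' + x') := by
    rw [hg]; push_cast
    exact mul_dvd_mul ((Int.natCast_dvd_natCast.mpr (Nat.gcd_dvd_left _ _)).trans hu)
      ((Int.natCast_dvd_natCast.mpr (Nat.gcd_dvd_right _ _)).trans hv')
  have d2 : (g : ℤ) ∣ ((y' : ℤ) - x') * (y + x) := by
    rw [hg]; push_cast
    exact mul_dvd_mul ((Int.natCast_dvd_natCast.mpr (Nat.gcd_dvd_right _ _)).trans hu')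
      ((Int.natCast_dvd_natCast.mpr (Nat.gcd_dvd_left _ _)).trans hv)
  set δ : ℤ := x * y' - y * x' with hδ
  set σ : ℤ := x * y' + y * x' with hσ
  have d3 : (g : ℤ) ∣ 2 * δ := by
    have := dvd_sub d2 d1
    have e : ((y' : ℤ) - x') * (y + x) - ((y : ℤ) - x) * (y' + x') = 2 * δ := by rw [hδ]; ring
    rwa [e] at this
  have e : δ * σ = (q - p) * ((c : ℤ) - b) := by
    have : δ * σ = (x : ℤ) ^ 2 * y' ^ 2 - y ^ 2 * x' ^ 2 := by rw [hδ, hσ]; ring
    rw [this, ex1, ey1, ex2, ey2]; ring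
  have hδ0 : δ ≠ 0 := by
    intro h
    rw [h, zero_mul] at e
    rcases mul_eq_zero.mp e.symm with h | h
    · linarith
    · exact hbc (by exact_mod_cast (by linarith : (b : ℤ) = c))
  have g2 : (g : ℤ) ^ 2 ≤ 4 * δ ^ 2 := by
    have := Int.le_of_dvd (by positivity) (pow_dvd_pow_of_dvd d3 2)
    linarith
  have hbc2 : ((c : ℤ) - b) ^ 2 ≤ ρ * (b * c) := by
    have h1' : (b : ℤ) ≤ ρ * c := by exact_mod_cast h1
    have h2' : (c : ℤ) ≤ ρ * b := by exact_mod_cast h2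
    rcases le_total (b : ℤ) c with h | h
    · nlinarith
    · nlinarith
  have fin : (g : ℤ) ^ 2 * (p * q) * (b * c) ≤ (q - p) ^ 2 * ρ * (b * c) := by
    calc (g : ℤ) ^ 2 * (p * q) * (b * c) ≤ 4 * δ ^ 2 * (p * q) * (b * c) := by
          have : (0 : ℤ) < q := by linarith
          gcongr
      _ = δ ^ 2 * (4 * (p * q * b * c)) := by ring
      _ ≤ δ ^ 2 * σ ^ 2 := by gcongr
      _ = (q - p) ^ 2 * ((c : ℤ) - b) ^ 2 := by rw [← mul_pow, e, mul_pow]
      _ ≤ (q - p) ^ 2 * (ρ * (b * c)) := by gcongr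
      _ = _ := by ring
  have := le_of_mul_le_mul_right fin (by positivity)
  have h4 : ((q - p : ℕ) : ℤ) = q - p := by push_cast [Nat.cast_sub hpq.le]; ring
  rw [← h4] at this
  exact_mod_cast this

lemma sign (p q : ℕ) (hp : 0 < p) (hpq : p < q) (S : Finset ℕ) (ρ k : ℕ)
    (hS : ∀ b ∈ S, 0 < b ∧ IsSquare (p * b + 1) ∧ IsSquare (q * b + 1))
    (hρ : ∀ b ∈ S, ∀ c ∈ S, c ≤ ρ * b) (hk : S.card = k + 1) : p ^ k ≤ ρ ^ k * q := by
  have hx : ∀ b ∈ S, ∃ x : ℕ, x * x = p * b + 1 := fun b hb =>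
    let ⟨x, h⟩ := (hS b hb).2.1; ⟨x, h.symm⟩
  have hy : ∀ b ∈ S, ∃ y : ℕ, y * y = q * b + 1 := fun b hb =>
    let ⟨x, h⟩ := (hS b hb).2.2; ⟨x, h.symm⟩
  choose! x hx using hx
  choose! y hy using hy
  set m := q - p with hm
  have m0 : 0 < m := by omega
  have hxy : ∀ b ∈ S, x b ≤ y b := fun b hb => by
    have h1 := hx b hb
    have h2 := hy b hb
    have : p * b ≤ q * b := Nat.mul_le_mul_right _ hpq.le
    exact Nat.mul_self_le_mul_self_iff.mp (by omega)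
  set u : ℕ → ℕ := fun b => Nat.gcd m (y b - x b) with hu
  have hum : ∀ b ∈ S, u b ∣ m := fun b _ => Nat.gcd_dvd_left _ _
  have hu1 : ∀ b ∈ S, (u b : ℤ) ∣ (y b : ℤ) - x b := fun b hb => by
    rw [← Nat.cast_sub (hxy b hb)]
    exact Int.natCast_dvd_natCast.mpr (Nat.gcd_dvd_right _ _)
  have hv1 : ∀ b ∈ S, ((m / u b : ℕ) : ℤ) ∣ (y b : ℤ) + x b := fun b hb => by
    have e : (y b - x b) * (y b + x b) = m * b := by
      have h1 := hx b hb
      have h2 := hy b hb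
      zify [hxy b hb, hpq.le, hm] at h1 h2 ⊢
      linear_combination h2 - h1
    have u0 : 0 < u b := Nat.gcd_pos_of_pos_left _ m0
    have cop : Nat.Coprime (m / u b) ((y b - x b) / u b) := Nat.coprime_div_gcd_div_gcd u0
    have e2 : (y b - x b) / u b * (y b + x b) = m / u b * b := by
      apply Nat.eq_of_mul_eq_mul_left u0
      rw [← mul_assoc, ← mul_assoc, Nat.mul_div_cancel' (hum b hb),
        Nat.mul_div_cancel' (Nat.gcd_dvd_right _ _), e]
    have : m / u b ∣ y b + x b := cop.dvd_of_dvd_mul_left ⟨b, e2⟩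
    exact_mod_cast this
  have hrow : ∀ b ∈ S, (∏ c ∈ S, (Nat.gcd (u b) (u c) * Nat.gcd (m / u b) (m / u c))) ^ 2 *
      (p * q) ^ k ≤ m ^ 2 * (m ^ 2 * ρ) ^ k := by
    intro b hb
    rw [← mul_prod_erase S _ hb, Nat.gcd_self, Nat.gcd_self, Nat.mul_div_cancel' (hum b hb),
      mul_pow, mul_assoc]
    refine Nat.mul_le_mul_left _ ?_
    have hc : (S.erase b).card = k := by rw [card_erase_of_mem hb, hk]; rfl
    rw [← hc, ← prod_pow, ← prod_const, ← prod_const, ← prod_mul_distrib]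
    refine prod_le_prod' fun c hc => ?_
    have hcS := mem_of_mem_erase hc
    exact pair_le p q b c _ _ _ _ hp hpq (hS b hb).1 (hS c hcS).1 (ne_of_mem_erase hc).symm ρ
      (hρ c hcS b hb) (hρ b hb c hcS) (hx b hb) (hy b hb) (hx c hcS) (hy c hcS) _ _ _ _
      (hu1 b hb) (hv1 b hb) (hu1 c hcS) (hv1 c hcS)
  have hall := prod_le_prod' hrow
  rw [prod_mul_distrib, prod_pow, prod_const, prod_const, hk] at hall
  have hg := gcd_prod S m m0 u hum
  rw [hk] at hg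
  have h1 : m ^ ((k + 1) ^ 2) * ((p * q) ^ k) ^ (k + 1) ≤
      m ^ ((k + 1) ^ 2) * (m ^ (k + 1) * ρ ^ k) ^ (k + 1) := by
    refine ((Nat.mul_le_mul_right _ hg).trans hall).trans (le_of_eq ?_)
    ring
  have h2 := Nat.le_of_mul_le_mul_left h1 (by positivity)
  have h3 := (Nat.pow_le_pow_iff_left (by omega)).mp h2
  have h4 : p ^ k * q ^ k ≤ ρ ^ k * q * q ^ k := by
    calc p ^ k * q ^ k = (p * q) ^ k := by rw [mul_pow]
      _ ≤ m ^ (k + 1) * ρ ^ k := h3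
      _ ≤ q ^ (k + 1) * ρ ^ k := by gcongr; omega
      _ = _ := by ring
  exact Nat.le_of_mul_le_mul_right h4 (by have : 0 < q := by omega
                                          positivity)

end Pool.Agent.P.MP_719a5e_nt
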