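import Pool.Agent.P.MP_719a5e_nt.Tiny
import Pool.Agent.P.MP_719a5e_nt.Sign
import Pool.Agent.P.MP_719a5e_nt.Final

set_option autoImplicit false

namespace Pool.Agent.P.MP_719a5e_nt

open Finset

theorem large (N : ℕ) : ∃ t : ℕ, ∀ (p q A : ℕ) (S : Finset ℕ), 0 < p → p < q → q < A →
    (∀ b ∈ S, A ≤ b ^ N ∧ IsSquare (p * b + 1) ∧ IsSquare (q * b + 1) ∧ IsSquare (A * b + 1)) →
    S.card ≤ t := by
  obtain ⟨E, H0, hT⟩ := tiny N
  set W := 8 * N * E + 1 with hW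
  set k := W + 8 * N + 3 with hk
  refine ⟨7 + ((H0 + 3) ^ W + k * W), fun p q A S hp hpq hqA hS => ?_⟩
  rcases Nat.eq_zero_or_pos N with rfl | hN
  · have : S = ∅ := eq_empty_of_forall_notMem fun b hb => by
      have := (hS b hb).1
      rw [pow_zero] at this
      omega
    rw [this]; simp
  have b0 : ∀ b ∈ S, 0 < b := fun b hb => by
    have := (hS b hb).1
    rcases Nat.eq_zero_or_pos b with rfl | h
    · rw [zero_pow hN.ne'] at this; omega
    · exact h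
  rw [← card_filter_add_card_filter_not (s := S) (fun b => A ≤ b)]
  refine Nat.add_le_add ?_ ?_
  · refine main.2.1 ![p, q, A] ?_ hp _ fun b hb => ?_
    · refine Fin.strictMono_iff_lt_succ.mpr fun i => ?_
      fin_cases i
      · exact hpq
      · exact hqA
    · obtain ⟨h1, h2⟩ := mem_filter.mp hb
      refine ⟨h2, fun i => ?_⟩
      fin_cases i
      · exact (hS b h1).2.1
      · exact (hS b h1).2.2.1
      · exact (hS b h1).2.2.2
  set S2 := S.filter (fun b => ¬A ≤ b) with hS2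
  have m2 : ∀ b ∈ S2, b ∈ S ∧ b < A := fun b hb => by
    obtain ⟨h1, h2⟩ := mem_filter.mp hb
    exact ⟨h1, by omega⟩
  have ex : ∃ ρ : ℕ, A ≤ ρ ^ W := ⟨A, Nat.le_self_pow (by omega) _⟩
  classical
  set ρ := Nat.find ex with hρ
  have r1 : A ≤ ρ ^ W := Nat.find_spec ex
  rcases lt_or_ge ρ (H0 + 3) with h | h
  · refine le_trans ?_ (Nat.le_add_right _ _)
    calc S2.card ≤ (range A).card := card_le_card fun b hb => mem_range.mpr (m2 b hb).2
      _ = A := card_range _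
      _ ≤ ρ ^ W := r1
      _ ≤ _ := Nat.pow_le_pow_left h.le _
  have r2 : (ρ - 1) ^ W < A := by
    have := Nat.find_min ex (show ρ - 1 < ρ by omega)
    omega
  refine le_trans ?_ (Nat.le_add_left _ _)
  have := card_le_mul_card_image_of_maps_to (s := S2) (t := range W) (f := Nat.log ρ)
    (fun b hb => mem_range.mpr (Nat.log_lt_of_lt_pow (b0 b (m2 b hb).1).ne'
      ((m2 b hb).2.trans_le r1))) k ?_
  · rwa [card_range] at this
  intro i _
  by_contra hc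
  set F := S2.filter (fun b => Nat.log ρ b = i) with hF
  have mF : ∀ b ∈ F, b ∈ S ∧ Nat.log ρ b = i := fun b hb =>
    ⟨(m2 b (mem_filter.mp hb).1).1, (mem_filter.mp hb).2⟩
  have rat : ∀ b ∈ F, ∀ c ∈ F, c ≤ ρ * b := fun b hb c hc => by
    have h1 := Nat.pow_log_le_self ρ (b0 b (mF b hb).1).ne'
    have h2 := Nat.lt_pow_succ_log_self (show 1 < ρ by omega) c
    rw [(mF b hb).2] at h1
    rw [(mF c hc).2, pow_succ] at h2
    calc c ≤ ρ * ρ ^ i := by rw [mul_comm]; exact h2.le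
      _ ≤ _ := Nat.mul_le_mul_left _ h1
  obtain ⟨F', hF', hc'⟩ := exists_subset_card_eq (show k + 1 ≤ F.card by omega)
  have sg := sign q A (by omega) hqA F' ρ k
    (fun b hb => ⟨b0 b (mF b (hF' hb)).1, (hS b (mF b (hF' hb)).1).2.2⟩)
    (fun b hb c hc => rat b (hF' hb) c (hF' hc)) hc'
  have q2 : q ≤ ρ ^ 2 := by
    refine (Nat.pow_le_pow_iff_left (show k ≠ 0 by omega)).mp (sg.trans ?_)
    calc ρ ^ k * A ≤ ρ ^ k * ρ ^ k :=
          Nat.mul_le_mul_left _ (r1.trans (Nat.pow_le_pow_right (by omega) (by omega)))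
      _ = _ := by ring
  have ne : F.Nonempty := card_pos.mp (by omega)
  have hB := F.min'_mem ne
  set B := F.min' ne with hBd
  have AB : A ≤ B ^ (2 * N) :=
    (hS B (mF B hB).1).1.trans (Nat.pow_le_pow_right (b0 B (mF B hB).1) (by omega))
  have ρ2 : ρ ≤ ρ ^ 2 := Nat.le_self_pow (by omega) _
  have := hT p q A (ρ ^ 2) B F hp hpq hqA (by omega) q2 ?_ AB fun b hb =>
    ⟨F.min'_le b hb, (rat B hB b hb).trans (Nat.mul_le_mul_right _ ρ2), (hS b (mF b hb).1).2⟩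
  · omega
  refine (Nat.pow_le_pow_iff_left (show 2 * N ≠ 0 by omega)).mp (le_trans ?_ (r2.le.trans AB))
  have h3 : ρ ≤ (ρ - 1) ^ 2 := by
    obtain ⟨u, hu⟩ : ∃ u, ρ = u + 3 := ⟨ρ - 3, by omega⟩
    rw [hu, show u + 3 - 1 = u + 2 by omega]
    nlinarith
  calc ((ρ ^ 2) ^ E) ^ (2 * N) = ρ ^ (4 * N * E) := by ring
    _ ≤ ((ρ - 1) ^ 2) ^ (4 * N * E) := Nat.pow_le_pow_left h3 _
    _ = (ρ - 1) ^ (8 * N * E) := by ring
    _ ≤ _ := Nat.pow_le_pow_right (by omega) (by omega)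

theorem four : ∃ t : ℕ, ∀ A B : Finset ℕ, (∀ a ∈ A, 0 < a) →
    (∀ a ∈ A, ∀ b ∈ B, IsSquare (a * b + 1)) → 4 ≤ A.card → B.card ≤ t := by
  obtain ⟨t, ht⟩ := large 52
  refine ⟨t + 41, fun A B hA h h4 => ?_⟩
  set a := A.orderEmbOfCardLe h4 with ha
  have am : ∀ i, a i ∈ A := fun i => A.orderEmbOfCardLe_mem h4 i
  have a01 : a 0 < a 1 := a.strictMono (by decide)
  have a12 : a 1 < a 2 := a.strictMono (by decide)
  have a23 : a 2 < a 3 := a.strictMono (by decide)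
  rw [← card_filter_add_card_filter_not (s := B) (fun b => a 2 ≤ b ^ 52)]
  refine Nat.add_le_add (ht (a 0) (a 1) (a 2) _ (hA _ (am 0)) a01 a12 fun b hb => ?_) ?_
  · obtain ⟨h1, h2⟩ := mem_filter.mp hb
    exact ⟨h2, h _ (am 0) b h1, h _ (am 1) b h1, h _ (am 2) b h1⟩
  by_contra hc
  have h41 : 41 ≤ ((B.filter (fun b => ¬a 2 ≤ b ^ 52)).erase 0).card := by
    have := pred_card_le_card_erase (s := B.filter (fun b => ¬a 2 ≤ b ^ 52)) (a := 0)
    omega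
  obtain ⟨F, hF, hc'⟩ := exists_subset_card_eq h41
  have mF : ∀ b ∈ F, 0 < b ∧ b ∈ B ∧ b ^ 52 < a 2 := fun b hb => by
    obtain ⟨h1, h2⟩ := mem_erase.mp (hF hb)
    obtain ⟨h3, h4⟩ := mem_filter.mp h2
    exact ⟨by omega, h3, by omega⟩
  have h3 : 3 ≤ F.card := by omega
  set c := F.orderEmbOfCardLe h3 with hcd
  have cm : ∀ i, c i ∈ F := fun i => F.orderEmbOfCardLe_mem h3 i
  have c01 : c 0 < c 1 := c.strictMono (by decide)
  have c12 : c 1 < c 2 := c.strictMono (by decide)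
  have c0 := (mF _ (cm 0)).1
  choose r hr using fun (i : Fin 3) (j : Fin 4) =>
    root_of (c i) (a j) (by rw [mul_comm]; exact h _ (am j) _ (mF _ (cm i)).2.1)
  have e20 : ((a 3 : ℕ) : ℤ) < ((a 2 : ℕ) : ℤ) ^ 20 := by
    refine excl (c 0) (c 1) (c 2) (a 2) (a 3) (r 0 2) (r 1 2) (r 2 2) (r 0 3) (r 1 3) (r 2 3)
      (by exact_mod_cast c0) (by exact_mod_cast c01) (by exact_mod_cast c12) ?_
      (by exact_mod_cast hA _ (am 3)) (hr _ _).1 (hr _ _).1 (hr _ _).1 (hr _ _).1 (hr _ _).1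
      (hr _ _).1 (hr _ _).2 (hr _ _).2 (hr _ _).2 (hr _ _).2 (hr _ _).2 (hr _ _).2
    have : 2 ^ 33 * c 2 ^ 18 ≤ a 2 := by
      calc 2 ^ 33 * c 2 ^ 18 ≤ c 2 ^ 34 * c 2 ^ 18 := by
            refine Nat.mul_le_mul_right _ ?_
            calc 2 ^ 33 ≤ 2 ^ 34 := by norm_num
              _ ≤ _ := Nat.pow_le_pow_left (by omega) _
        _ = c 2 ^ 52 := by ring
        _ ≤ _ := (mF _ (cm 2)).2.2.le
    exact_mod_cast this
  have e20' : a 3 < a 2 ^ 20 := by exact_mod_cast e20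
  have ne : F.Nonempty := card_pos.mp (by omega)
  have hρ := F.max'_mem ne
  set ρ := F.max' ne with hρd
  have sg := sign (a 2) (a 3) (hA _ (am 2)) a23 F ρ 40
    (fun b hb => ⟨(mF b hb).1, h _ (am 2) b (mF b hb).2.1, h _ (am 3) b (mF b hb).2.1⟩)
    (fun b hb c hc => (F.le_max' c hc).trans (Nat.le_mul_of_pos_right _ (mF b hb).1)) hc'
  have ρ0 := (mF ρ hρ).1
  have ρ1 : ρ ^ 2 ≤ a 2 := (Nat.pow_le_pow_right ρ0 (by norm_num)).trans (mF ρ hρ).2.2.le
  have : a 2 ^ 40 < a 2 ^ 40 := by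
    calc a 2 ^ 40 ≤ ρ ^ 40 * a 3 := sg
      _ < ρ ^ 40 * a 2 ^ 20 := Nat.mul_lt_mul_of_pos_left e20' (by positivity)
      _ = (ρ ^ 2) ^ 20 * a 2 ^ 20 := by ring
      _ ≤ a 2 ^ 20 * a 2 ^ 20 := Nat.mul_le_mul_right _ (Nat.pow_le_pow_left ρ1 _)
      _ = _ := by ring
  exact lt_irrefl _ this

end Pool.Agent.P.MP_719a5e_nt
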