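import Mathlib

set_option autoImplicit false

namespace Pool.Agent.P.MP_719a5e_nt

/-- the bilinear form of the conic on which the vectors of square roots lie -/
def Gf (a1 a2 a3 r1 r2 r3 s1 s2 s3 : ℤ) : ℤ :=
  (a3 - a1) * r2 * s2 - (a2 - a1) * r3 * s3 - (a3 - a2) * r1 * s1

lemma cross_sq (x y b c r1 r2 s1 s2 : ℤ) (hx : 0 < x) (hy : 0 < y) (hb : 0 < b) (hc : 0 < c)
    (p1 : 0 < r1) (p2 : 0 < r2) (q1 : 0 < s1) (q2 : 0 < s2)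
    (h1 : r1 ^ 2 = x * b + 1) (h2 : r2 ^ 2 = y * b + 1)
    (k1 : s1 ^ 2 = x * c + 1) (k2 : s2 ^ 2 = y * c + 1) :
    4 * (x * y * b * c) < (r1 * s2 + r2 * s1) ^ 2 := by
  have hP : x * y * b * c < r1 * s2 * (r2 * s1) := by
    have h0 : 0 < x * y * b * c := by positivity
    have hsq : (x * y * b * c) ^ 2 < (r1 * s2 * (r2 * s1)) ^ 2 := by
      have e : (r1 * s2 * (r2 * s1)) ^ 2 = (x * b + 1) * (y * c + 1) * ((y * b + 1) * (x * c + 1)) := by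
        rw [← h1, ← h2, ← k1, ← k2]; ring
      have e2 : (x * y * b * c) ^ 2 = (x * b) * (y * c) * ((y * b) * (x * c)) := by ring
      rw [e, e2]
      have u1 : 0 < x * b := by positivity
      have u2 : 0 < y * c := by positivity
      have u3 : 0 < y * b := by positivity
      have u4 : 0 < x * c := by positivity
      gcongr <;> linarith
    exact lt_of_pow_lt_pow_left₀ 2 (by positivity) hsq
  nlinarith [sq_nonneg (r1 * s2 - r2 * s1)]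

lemma Gf_bound (a1 a2 a3 b c r1 r2 r3 s1 s2 s3 : ℤ) (h0 : 0 < a1) (h12 : a1 < a2) (h23 : a2 < a3)
    (hb : 0 < b) (hbc : b < c)
    (p1 : 0 < r1) (p2 : 0 < r2) (p3 : 0 < r3) (q1 : 0 < s1) (q2 : 0 < s2) (q3 : 0 < s3)
    (e1 : r1 ^ 2 = a1 * b + 1) (e2 : r2 ^ 2 = a2 * b + 1) (e3 : r3 ^ 2 = a3 * b + 1)
    (f1 : s1 ^ 2 = a1 * c + 1) (f2 : s2 ^ 2 = a2 * c + 1) (f3 : s3 ^ 2 = a3 * c + 1) :
    0 < Gf a1 a2 a3 r1 r2 r3 s1 s2 s3 ∧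
    Gf a1 a2 a3 r1 r2 r3 s1 s2 s3 ^ 2 * (64 * (a1 * a2 * a3) ^ 2 * (b * c) ^ 3)
      < ((a2 - a1) * (a3 - a1) * (a3 - a2)) ^ 2 * (c - b) ^ 4 := by
  have hc : 0 < c := by linarith
  have ha2 : 0 < a2 := by linarith
  have ha3 : 0 < a3 := by linarith
  set G := Gf a1 a2 a3 r1 r2 r3 s1 s2 s3 with hG
  have n12 : (r1 * s2 - r2 * s1) * (r1 * s2 + r2 * s1) = (a2 - a1) * (c - b) := by
    have : (r1 * s2 - r2 * s1) * (r1 * s2 + r2 * s1) = r1 ^ 2 * s2 ^ 2 - r2 ^ 2 * s1 ^ 2 := by ring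
    rw [this, e1, e2, f1, f2]; ring
  have n13 : (r1 * s3 - r3 * s1) * (r1 * s3 + r3 * s1) = (a3 - a1) * (c - b) := by
    have : (r1 * s3 - r3 * s1) * (r1 * s3 + r3 * s1) = r1 ^ 2 * s3 ^ 2 - r3 ^ 2 * s1 ^ 2 := by ring
    rw [this, e1, e3, f1, f3]; ring
  have n23 : (r2 * s3 - r3 * s2) * (r2 * s3 + r3 * s2) = (a3 - a2) * (c - b) := by
    have : (r2 * s3 - r3 * s2) * (r2 * s3 + r3 * s2) = r2 ^ 2 * s3 ^ 2 - r3 ^ 2 * s2 ^ 2 := by ring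
    rw [this, e2, e3, f2, f3]; ring
  have nn : (r1 * s2 - r2 * s1) * (r1 * s3 - r3 * s1) * (r2 * s3 - r3 * s2) = (c - b) * G := by
    have : (r1 * s2 - r2 * s1) * (r1 * s3 - r3 * s1) * (r2 * s3 - r3 * s2)
        = r2 * s2 * (r1 ^ 2 * s3 ^ 2 - r3 ^ 2 * s1 ^ 2) + r3 * s3 * (r2 ^ 2 * s1 ^ 2 - r1 ^ 2 * s2 ^ 2)
          + r1 * s1 * (r3 ^ 2 * s2 ^ 2 - r2 ^ 2 * s3 ^ 2) := by ring
    rw [this, e1, e2, e3, f1, f2, f3, hG, Gf]; ring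
  set M := (r1 * s2 + r2 * s1) * (r1 * s3 + r3 * s1) * (r2 * s3 + r3 * s2) with hM
  have hD : 0 < c - b := by linarith
  have key : G * M = (a2 - a1) * (a3 - a1) * (a3 - a2) * (c - b) ^ 2 := by
    have h : (c - b) * (G * M) = (c - b) * ((a2 - a1) * (a3 - a1) * (a3 - a2) * (c - b) ^ 2) := by
      calc (c - b) * (G * M) = ((c - b) * G) * M := by ring
        _ = ((r1 * s2 - r2 * s1) * (r1 * s2 + r2 * s1)) * ((r1 * s3 - r3 * s1) * (r1 * s3 + r3 * s1))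
            * ((r2 * s3 - r3 * s2) * (r2 * s3 + r3 * s2)) := by rw [← nn, hM]; ring
        _ = _ := by rw [n12, n13, n23]; ring
    exact mul_left_cancel₀ hD.ne' h
  have hMpos : 0 < M := by positivity
  have hΔ : 0 < (a2 - a1) * (a3 - a1) * (a3 - a2) * (c - b) ^ 2 := by
    have : 0 < a2 - a1 := by linarith
    have : 0 < a3 - a1 := by linarith
    have : 0 < a3 - a2 := by linarith
    positivity
  have hGpos : 0 < G := by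
    by_contra hneg
    have : G * M ≤ 0 := mul_nonpos_of_nonpos_of_nonneg (not_lt.mp hneg) hMpos.le
    linarith
  refine ⟨hGpos, ?_⟩
  have m12 := cross_sq a1 a2 b c r1 r2 s1 s2 h0 ha2 hb hc p1 p2 q1 q2 e1 e2 f1 f2
  have m13 := cross_sq a1 a3 b c r1 r3 s1 s3 h0 ha3 hb hc p1 p3 q1 q3 e1 e3 f1 f3
  have m23 := cross_sq a2 a3 b c r2 r3 s2 s3 ha2 ha3 hb hc p2 p3 q2 q3 e2 e3 f2 f3
  have hM2 : 64 * (a1 * a2 * a3) ^ 2 * (b * c) ^ 3 < M ^ 2 := by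
    have e : 64 * (a1 * a2 * a3) ^ 2 * (b * c) ^ 3
        = (4 * (a1 * a2 * b * c)) * (4 * (a1 * a3 * b * c)) * (4 * (a2 * a3 * b * c)) := by ring
    have e' : M ^ 2 = (r1 * s2 + r2 * s1) ^ 2 * (r1 * s3 + r3 * s1) ^ 2 * (r2 * s3 + r3 * s2) ^ 2 := by
      rw [hM]; ring
    rw [e, e']
    gcongr
  calc G ^ 2 * (64 * (a1 * a2 * a3) ^ 2 * (b * c) ^ 3) < G ^ 2 * M ^ 2 := by gcongr
    _ = (G * M) ^ 2 := by ring
    _ = _ := by rw [key]; ring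

/-- two-point gap principle -/
lemma two_gap (a1 a2 a3 b c r1 r2 r3 s1 s2 s3 : ℤ) (h0 : 0 < a1) (h12 : a1 < a2) (h23 : a2 < a3)
    (hb : 0 < b) (hbc : b < c)
    (p1 : 0 < r1) (p2 : 0 < r2) (p3 : 0 < r3) (q1 : 0 < s1) (q2 : 0 < s2) (q3 : 0 < s3)
    (e1 : r1 ^ 2 = a1 * b + 1) (e2 : r2 ^ 2 = a2 * b + 1) (e3 : r3 ^ 2 = a3 * b + 1)
    (f1 : s1 ^ 2 = a1 * c + 1) (f2 : s2 ^ 2 = a2 * c + 1) (f3 : s3 ^ 2 = a3 * c + 1) :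
    64 * b ^ 3 < a3 ^ 2 * c := by
  obtain ⟨hG, hb2⟩ := Gf_bound a1 a2 a3 b c r1 r2 r3 s1 s2 s3 h0 h12 h23 hb hbc p1 p2 p3 q1 q2 q3
    e1 e2 e3 f1 f2 f3
  have hc : 0 < c := by linarith
  have ha2 : 0 < a2 := by linarith
  have ha3 : 0 < a3 := by linarith
  set G := Gf a1 a2 a3 r1 r2 r3 s1 s2 s3
  clear_value G
  have hG1 : 1 ≤ G ^ 2 := one_le_pow₀ hG
  have ha1 : 1 ≤ a1 ^ 2 := one_le_pow₀ h0
  have hX : 0 < (a2 * a3) ^ 2 * c ^ 3 := by positivity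
  have h1 : (64 * b ^ 3) * ((a2 * a3) ^ 2 * c ^ 3) ≤ G ^ 2 * (64 * (a1 * a2 * a3) ^ 2 * (b * c) ^ 3) := by
    have : G ^ 2 * (64 * (a1 * a2 * a3) ^ 2 * (b * c) ^ 3)
        = (G ^ 2 * a1 ^ 2) * ((64 * b ^ 3) * ((a2 * a3) ^ 2 * c ^ 3)) := by ring
    rw [this]
    exact le_mul_of_one_le_left (by positivity) (one_le_mul_of_one_le_of_one_le hG1 ha1)
  have h2 : ((a2 - a1) * (a3 - a1) * (a3 - a2)) ^ 2 * (c - b) ^ 4 ≤ (a2 * a3 * a3) ^ 2 * c ^ 4 := by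
    have : 0 < a2 - a1 := by linarith
    have : 0 < a3 - a1 := by linarith
    have : 0 < a3 - a2 := by linarith
    have : 0 < c - b := by linarith
    gcongr <;> linarith
  have h3 : (64 * b ^ 3) * ((a2 * a3) ^ 2 * c ^ 3) < (a3 ^ 2 * c) * ((a2 * a3) ^ 2 * c ^ 3) := by
    calc _ ≤ _ := h1
      _ < _ := hb2
      _ ≤ _ := h2
      _ = _ := by ring
  exact lt_of_mul_lt_mul_right h3 hX.le

/-- three-point gap principle -/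
lemma three_gap (a1 a2 a3 b c d r1 r2 r3 s1 s2 s3 t1 t2 t3 : ℤ)
    (h0 : 0 < a1) (h12 : a1 < a2) (h23 : a2 < a3)
    (hb : 0 < b) (hbc : b < c) (hcd : c < d)
    (p1 : 0 < r1) (p2 : 0 < r2) (p3 : 0 < r3) (q1 : 0 < s1) (q2 : 0 < s2) (q3 : 0 < s3)
    (o1 : 0 < t1) (o2 : 0 < t2) (o3 : 0 < t3)
    (e1 : r1 ^ 2 = a1 * b + 1) (e2 : r2 ^ 2 = a2 * b + 1) (e3 : r3 ^ 2 = a3 * b + 1)
    (f1 : s1 ^ 2 = a1 * c + 1) (f2 : s2 ^ 2 = a2 * c + 1) (f3 : s3 ^ 2 = a3 * c + 1)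
    (g1 : t1 ^ 2 = a1 * d + 1) (g2 : t2 ^ 2 = a2 * d + 1) (g3 : t3 ^ 2 = a3 * d + 1) :
    256 * (a1 * a2 * a3 * (b * c * d)) ^ 3
      < ((a2 - a1) * (a3 - a1) * (a3 - a2) * ((c - b) * (d - b) * (d - c))) ^ 2 := by
  have hc : 0 < c := by linarith
  have hd : 0 < d := by linarith
  have ha2 : 0 < a2 := by linarith
  have ha3 : 0 < a3 := by linarith
  obtain ⟨G1, B1⟩ := Gf_bound a1 a2 a3 b c r1 r2 r3 s1 s2 s3 h0 h12 h23 hb hbc p1 p2 p3 q1 q2 q3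
    e1 e2 e3 f1 f2 f3
  obtain ⟨G2, B2⟩ := Gf_bound a1 a2 a3 b d r1 r2 r3 t1 t2 t3 h0 h12 h23 hb (by linarith) p1 p2 p3
    o1 o2 o3 e1 e2 e3 g1 g2 g3
  obtain ⟨G3, B3⟩ := Gf_bound a1 a2 a3 c d s1 s2 s3 t1 t2 t3 h0 h12 h23 hc hcd q1 q2 q3 o1 o2 o3
    f1 f2 f3 g1 g2 g3
  have gram : 2 * (Gf a1 a2 a3 r1 r2 r3 s1 s2 s3 * Gf a1 a2 a3 r1 r2 r3 t1 t2 t3
      * Gf a1 a2 a3 s1 s2 s3 t1 t2 t3) = (a2 - a1) * (a3 - a1) * (a3 - a2) *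
        (r1 * (s2 * t3 - s3 * t2) - r2 * (s1 * t3 - s3 * t1) + r3 * (s1 * t2 - s2 * t1)) ^ 2 := by
    have z1 : Gf a1 a2 a3 r1 r2 r3 r1 r2 r3 = 0 := by
      unfold Gf; linear_combination (a3 - a1) * e2 - (a2 - a1) * e3 - (a3 - a2) * e1
    have z2 : Gf a1 a2 a3 s1 s2 s3 s1 s2 s3 = 0 := by
      unfold Gf; linear_combination (a3 - a1) * f2 - (a2 - a1) * f3 - (a3 - a2) * f1
    have z3 : Gf a1 a2 a3 t1 t2 t3 t1 t2 t3 = 0 := by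
      unfold Gf; linear_combination (a3 - a1) * g2 - (a2 - a1) * g3 - (a3 - a2) * g1
    have : (a2 - a1) * (a3 - a1) * (a3 - a2) *
        (r1 * (s2 * t3 - s3 * t2) - r2 * (s1 * t3 - s3 * t1) + r3 * (s1 * t2 - s2 * t1)) ^ 2
        = Gf a1 a2 a3 r1 r2 r3 r1 r2 r3 * Gf a1 a2 a3 s1 s2 s3 s1 s2 s3 * Gf a1 a2 a3 t1 t2 t3 t1 t2 t3
          + 2 * (Gf a1 a2 a3 r1 r2 r3 s1 s2 s3 * Gf a1 a2 a3 r1 r2 r3 t1 t2 t3
            * Gf a1 a2 a3 s1 s2 s3 t1 t2 t3)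
          - Gf a1 a2 a3 r1 r2 r3 r1 r2 r3 * Gf a1 a2 a3 s1 s2 s3 t1 t2 t3 ^ 2
          - Gf a1 a2 a3 s1 s2 s3 s1 s2 s3 * Gf a1 a2 a3 r1 r2 r3 t1 t2 t3 ^ 2
          - Gf a1 a2 a3 t1 t2 t3 t1 t2 t3 * Gf a1 a2 a3 r1 r2 r3 s1 s2 s3 ^ 2 := by
      unfold Gf; ring
    rw [this, z1, z2, z3]; ring
  set X := Gf a1 a2 a3 r1 r2 r3 s1 s2 s3
  set Y := Gf a1 a2 a3 r1 r2 r3 t1 t2 t3
  set Z := Gf a1 a2 a3 s1 s2 s3 t1 t2 t3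
  set Dt := r1 * (s2 * t3 - s3 * t2) - r2 * (s1 * t3 - s3 * t1) + r3 * (s1 * t2 - s2 * t1)
  set Δ := (a2 - a1) * (a3 - a1) * (a3 - a2) with hΔ
  have hΔ0 : 0 < Δ := by
    have : 0 < a2 - a1 := by linarith
    have : 0 < a3 - a1 := by linarith
    have : 0 < a3 - a2 := by linarith
    positivity
  have hDt : Dt ≠ 0 := by
    intro h
    rw [h] at gram
    have : 0 < X * Y * Z := by positivity
    simp at gram
    rcases gram with (h | h) | h <;> linarith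
  have hDt1 : 1 ≤ Dt ^ 2 := by
    have : 0 < Dt ^ 2 := by positivity
    linarith
  have hle : Δ ≤ 2 * (X * Y * Z) := by
    rw [gram]; exact le_mul_of_one_le_right hΔ0.le hDt1
  set A := a1 * a2 * a3
  have hA : 0 < A := by positivity
  clear_value X Y Z Dt Δ A
  have hprod : (X ^ 2 * (64 * A ^ 2 * (b * c) ^ 3)) * (Y ^ 2 * (64 * A ^ 2 * (b * d) ^ 3))
      * (Z ^ 2 * (64 * A ^ 2 * (c * d) ^ 3))
      < (Δ ^ 2 * (c - b) ^ 4) * (Δ ^ 2 * (d - b) ^ 4) * (Δ ^ 2 * (d - c) ^ 4) := by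
    gcongr
  have h4 : Δ ^ 2 * (256 * (A * (b * c * d)) ^ 3) ^ 2
      < Δ ^ 2 * ((Δ * ((c - b) * (d - b) * (d - c))) ^ 2) ^ 2 := by
    calc Δ ^ 2 * (256 * (A * (b * c * d)) ^ 3) ^ 2
        ≤ (2 * (X * Y * Z)) ^ 2 * (256 * (A * (b * c * d)) ^ 3) ^ 2 := by gcongr
      _ = (X ^ 2 * (64 * A ^ 2 * (b * c) ^ 3)) * (Y ^ 2 * (64 * A ^ 2 * (b * d) ^ 3))
          * (Z ^ 2 * (64 * A ^ 2 * (c * d) ^ 3)) := by ring
      _ < _ := hprod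
      _ = _ := by ring
  have h5 := lt_of_mul_lt_mul_left h4 (by positivity)
  exact lt_of_pow_lt_pow_left₀ 2 (by positivity) h5

end Pool.Agent.P.MP_719a5e_nt
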