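import Pool.Agent.P.MP_719a5e_nt.Excl
import Pool.Agent.P.MP_719a5e_nt.Gap

set_option autoImplicit false

namespace Pool.Agent.P.MP_719a5e_nt

open Filter Topology Polynomial

lemma Sc_bound (k : ℕ) (a1 a2 a3 : ℝ) (h0 : 1 ≤ a1) (h12 : a1 < a2) (h23 : a2 < a3) :
    0 < Sc k a1 a2 a3 ∧ Sc k a1 a2 a3 ≤ (4 * a3 ^ 4) ^ k := by
  have p1 : 0 < a1 := by linarith
  have p2 : 0 < a2 := by linarith
  have p3 : 0 < a3 := by linarith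
  have e : Sc k a1 a2 a3 = (4 * (((a2 - a1) * (a3 - a1) * (a3 - a2)) ^ 2 / (a1 * a2 * a3))) ^ k := by
    unfold Sc
    rw [pow_mul, mul_div_assoc, ← div_pow, ← mul_pow]
    congr 3; ring
  have x1 : 0 < a2 - a1 := by linarith
  have x2 : 0 < a3 - a1 := by linarith
  have x3 : 0 < a3 - a2 := by linarith
  rw [e]
  refine ⟨by positivity, ?_⟩
  gcongr
  rw [div_le_iff₀ (by positivity)]
  calc ((a2 - a1) * (a3 - a1) * (a3 - a2)) ^ 2 ≤ (a2 * a3 * a3) ^ 2 := by gcongr <;> linarith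
    _ = a3 ^ 4 * (1 * a2 * a2) := by ring
    _ ≤ a3 ^ 4 * (a1 * a2 * a3) := by gcongr

lemma pade (a1 a2 a3 b c r1 r2 r3 s1 s2 s3 : ℤ) (h0 : 0 < a1) (h12 : a1 < a2) (h23 : a2 < a3)
    (hb : 0 < b) (hc : 0 < c)
    (p1 : 0 < r1) (p2 : 0 < r2) (p3 : 0 < r3) (q1 : 0 < s1) (q2 : 0 < s2) (q3 : 0 < s3)
    (e1 : r1 ^ 2 = a1 * b + 1) (e2 : r2 ^ 2 = a2 * b + 1) (e3 : r3 ^ 2 = a3 * b + 1)
    (f1 : s1 ^ 2 = a1 * c + 1) (f2 : s2 ^ 2 = a2 * c + 1) (f3 : s3 ^ 2 = a3 * c + 1)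
    (k : ℕ) (hk : 1 ≤ k) :
    (1 : ℝ) ≤ (4 * (a3 : ℝ) ^ 4) ^ k * √c * (b / b ^ (2 * k) / √b)
      + 3 * ((2 ^ 10 * ((b : ℝ) + 1) * a3 ^ 6) ^ k * √(b + 1) * (1 / √c)) := by
  have h2 : 0 < a2 := by linarith
  have h3 : 0 < a3 := by linarith
  have A1 : (1 : ℝ) ≤ a1 := by exact_mod_cast h0
  have A2 : (1 : ℝ) ≤ a2 := by exact_mod_cast h2
  have A3 : (1 : ℝ) ≤ a3 := by exact_mod_cast h3
  have rb : (0 : ℝ) < b := by exact_mod_cast hb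
  have rc : (0 : ℝ) < c := by exact_mod_cast hc
  have A12 : (a1 : ℝ) < a2 := by exact_mod_cast h12
  have A23 : (a2 : ℝ) < a3 := by exact_mod_cast h23
  obtain ⟨hσ, hσ'⟩ := Sc_bound k a1 a2 a3 A1 A12 A23
  set w1 : ℝ := ((a1 : ℝ) * b + 1) / a1 with hw1
  set w2 : ℝ := ((a2 : ℝ) * b + 1) / a2 with hw2
  set w3 : ℝ := ((a3 : ℝ) * b + 1) / a3 with hw3
  have R := fun (e1 e2 e3 : ℕ) (he : e1 + e2 + e3 = 1) => row a1 a2 a3 b a3 h0 h2 h3 (by linarith)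
    h23.le le_rfl hb h12.ne (by linarith : a1 < a3).ne h23.ne k e1 e2 e3 hk he w1 w2 w3 hw1 hw2 hw3
  obtain ⟨x1, x2, x3, S1, X1, X2, X3, X4, X5, X6⟩ := R 1 0 0 rfl
  obtain ⟨y1, y2, y3, S2, Y1, Y2, Y3, Y4, Y5, Y6⟩ := R 0 1 0 rfl
  obtain ⟨z1, z2, z3, S3, Z1, Z2, Z3, Z4, Z5, Z6⟩ := R 0 0 1 rfl
  have o1 : 0 < w1 := by positivity
  have o2 : 0 < w2 := by positivity
  have o3 : 0 < w3 := by positivity
  have hlt : ∀ x y : ℝ, 0 < x → x < y → (y * b + 1) / y < (x * b + 1) / x := fun x y hx hxy => by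
    rw [div_lt_div_iff₀ (by linarith) hx]; nlinarith
  have n12 : w2 < w1 := hlt _ _ (by linarith) A12
  have n23 : w3 < w2 := hlt _ _ (by linarith) A23
  have cast : ∀ r a b : ℤ, r ^ 2 = a * b + 1 → (r : ℝ) ^ 2 = a * b + 1 := fun r a b h => by
    exact_mod_cast h
  have v1 := root_prod a1 b c r1 s1 (by linarith) (by exact_mod_cast p1) (by exact_mod_cast q1)
    (cast _ _ _ e1) (cast _ _ _ f1)
  have v2 := root_prod a2 b c r2 s2 (by linarith) (by exact_mod_cast p2) (by exact_mod_cast q2)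
    (cast _ _ _ e2) (cast _ _ _ f2)
  have v3 := root_prod a3 b c r3 s3 (by linarith) (by exact_mod_cast p3) (by exact_mod_cast q3)
    (cast _ _ _ e3) (cast _ _ _ f3)
  rw [← hw1] at v1
  rw [← hw2] at v2
  rw [← hw3] at v3
  have hu : ∀ a : ℝ, 1 ≤ a → |√((a * b + 1) / a)| ≤ √(b + 1) := fun a ha => by
    rw [abs_of_nonneg (Real.sqrt_nonneg _)]
    apply Real.sqrt_le_sqrt
    rw [div_le_iff₀ (by linarith)]; linarith
  have ht : 0 < √(c : ℝ) := Real.sqrt_pos.mpr rc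
  have F := fun (π1 π2 π3 : ℝ) G1 G2 G3 I0 I1 hne => form_ineq a1 a2 a3 r1 r2 r3 s1 s2 s3 h0 h2 h3
    (Sc k a1 a2 a3) ((2 ^ 10 * ((b : ℝ) + 1) * a3 ^ 6) ^ k) (b / b ^ (2 * k) / √b) √c √(b + 1)
    π1 π2 π3 √w1 √w2 √w3 _ _ _ hσ ht G1 G2 G3 v1 v2 v3 (hu _ A1) (hu _ A2) (hu _ A3)
    (phi_near _ _ A1 rc) (phi_near _ _ A2 rc) (phi_near _ _ A3 rc) I0 I1 hne
  have fin : (1 : ℝ) ≤ Sc k a1 a2 a3 * √c * (b / b ^ (2 * k) / √b)
      + 3 * ((2 ^ 10 * ((b : ℝ) + 1) * a3 ^ 6) ^ k * √(b + 1) * (1 / √c)) := by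
    by_contra hcon
    have hx := not_not.mp fun hne => hcon (F x1 x2 x3 X1 X2 X3 X4 X5 hne)
    have hy := not_not.mp fun hne => hcon (F y1 y2 y3 Y1 Y2 Y3 Y4 Y5 hne)
    have hz := not_not.mp fun hne => hcon (F z1 z2 z3 Z1 Z2 Z3 Z4 Z5 hne)
    have hv : √w1 * √(((a1 : ℝ) * c + 1) / a1) ≠ 0 := by positivity
    obtain ⟨l1, l2, l3, hl, c1, c2, c3⟩ := lin3 _ _ _ _ _ _ _ _ _ _ _ _ hv hx hy hz
    apply hl
    refine indep w1 w2 w3 o1 o2 o3 n12.ne' (n23.trans n12).ne' n23.ne' k hk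
      (C l1 * S1 + C l2 * S2 + C l3 * S3) l1 l2 l3 fun τ => ?_
    have D := (((X6 τ).const_mul l1).add ((Y6 τ).const_mul l2)).add ((Z6 τ).const_mul l3)
    have u1 : τ ^ 2 + w1 ≠ 0 := by positivity
    have u2 : τ ^ 2 + w2 ≠ 0 := by positivity
    have u3 : τ ^ 2 + w3 ≠ 0 := by positivity
    refine (D.congr_deriv ?_).congr_of_eventuallyEq (Eventually.of_forall fun τ => ?_)
    · have t1 := pow_ne_zero k u1
      have t2 := pow_ne_zero k u2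
      have t3 := pow_ne_zero k u3
      simp only [add_zero, pow_succ _ k, mul_pow]
      generalize (τ ^ 2 + w1) ^ k = W1 at *
      generalize (τ ^ 2 + w2) ^ k = W2 at *
      generalize (τ ^ 2 + w3) ^ k = W3 at *
      generalize (τ ^ 2) ^ k = T at *
      generalize τ ^ 2 + w1 = Q1 at *
      generalize τ ^ 2 + w2 = Q2 at *
      generalize τ ^ 2 + w3 = Q3 at *
      have : l1 * (T * τ ^ 2 / (W1 * Q1 * W2 * W3) - (x1 * w1 / Q1 + x2 * w2 / Q2 + x3 * w3 / Q3)) +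
          l2 * (T * τ ^ 2 / (W1 * (W2 * Q2) * W3) - (y1 * w1 / Q1 + y2 * w2 / Q2 + y3 * w3 / Q3)) +
          l3 * (T * τ ^ 2 / (W1 * W2 * (W3 * Q3)) - (z1 * w1 / Q1 + z2 * w2 / Q2 + z3 * w3 / Q3)) =
          l1 * (T * τ ^ 2 / (W1 * Q1 * W2 * W3)) + l2 * (T * τ ^ 2 / (W1 * (W2 * Q2) * W3)) +
          l3 * (T * τ ^ 2 / (W1 * W2 * (W3 * Q3))) - ((l1 * x1 + l2 * y1 + l3 * z1) * (w1 / Q1) +
          (l1 * x2 + l2 * y2 + l3 * z2) * (w2 / Q2) + (l1 * x3 + l2 * y3 + l3 * z3) * (w3 / Q3)) := by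
        ring
      rw [this, c1, c2, c3]
      field_simp
      ring
    · simp only [eval_add, eval_mul, eval_C, Pi.add_apply]
      ring
  refine fin.trans ?_
  gcongr

lemma excl (a1 a2 a3 b c r1 r2 r3 s1 s2 s3 : ℤ) (h0 : 0 < a1) (h12 : a1 < a2) (h23 : a2 < a3)
    (hb : 2 ^ 33 * a3 ^ 18 ≤ b) (hc : 0 < c)
    (p1 : 0 < r1) (p2 : 0 < r2) (p3 : 0 < r3) (q1 : 0 < s1) (q2 : 0 < s2) (q3 : 0 < s3)
    (e1 : r1 ^ 2 = a1 * b + 1) (e2 : r2 ^ 2 = a2 * b + 1) (e3 : r3 ^ 2 = a3 * b + 1)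
    (f1 : s1 ^ 2 = a1 * c + 1) (f2 : s2 ^ 2 = a2 * c + 1) (f3 : s3 ^ 2 = a3 * c + 1) :
    c < b ^ 20 := by
  have h3 : 0 < a3 := by linarith
  have hb0 : 0 < b := lt_of_lt_of_le (by positivity) hb
  have A3 : (1 : ℝ) ≤ a3 := by exact_mod_cast h3
  have rb : (0 : ℝ) < b := by exact_mod_cast hb0
  have rc : (1 : ℝ) ≤ c := by exact_mod_cast hc
  have hbR : (2 : ℝ) ^ 33 * (a3 : ℝ) ^ 18 ≤ b := by exact_mod_cast hb
  obtain ⟨z, hz0, hz⟩ : ∃ z : ℝ, 0 < z ∧ z ^ 12 = b :=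
    ⟨(b : ℝ) ^ ((12 : ℕ) : ℝ)⁻¹, by positivity, Real.rpow_inv_natCast_pow rb.le (by norm_num)⟩
  have q18 : (1 : ℝ) ≤ (a3 : ℝ) ^ 18 := one_le_pow₀ A3
  have hz4 : 4 ≤ z := by
    refine le_of_pow_le_pow_left₀ (n := 12) (by norm_num) hz0.le ?_
    rw [hz]; nlinarith
  have hz1 : 1 ≤ z := by linarith
  have hA : 4 * (a3 : ℝ) ^ 4 ≤ z ^ 3 := by
    refine le_of_pow_le_pow_left₀ (n := 4) (by norm_num) (by positivity) ?_
    rw [← pow_mul, hz]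
    have : (a3 : ℝ) ^ 16 ≤ (a3 : ℝ) ^ 18 := pow_le_pow_right₀ A3 (by norm_num)
    nlinarith
  have hB : 2 ^ 11 * (a3 : ℝ) ^ 6 ≤ z ^ 4 := by
    refine le_of_pow_le_pow_left₀ (n := 3) (by norm_num) (by positivity) ?_
    rw [← pow_mul, hz]
    nlinarith
  have hb1 : (1 : ℝ) ≤ b := by exact_mod_cast hb0
  have hsb : √(b : ℝ) = z ^ 6 := by
    rw [← hz, show z ^ 12 = (z ^ 6) ^ 2 by ring, Real.sqrt_sq (by positivity)]
  have hsb1 : √((b : ℝ) + 1) ≤ 2 * z ^ 6 := by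
    apply Real.sqrt_le_iff.mpr
    refine ⟨by positivity, ?_⟩
    have : (2 * z ^ 6) ^ 2 = 4 * z ^ 12 := by ring
    rw [this, hz]; linarith
  set t := √(c : ℝ) with ht
  have ht1 : 1 ≤ t := Real.one_le_sqrt.mpr rc
  have hz6 : 1 ≤ z ^ 6 := one_le_pow₀ hz1
  obtain ⟨n, hn1, hn2⟩ := exists_nat_pow_near (x := 2 * z ^ 6 * t) (y := z ^ 21) (by nlinarith)
    (one_lt_pow₀ (by linarith) (by norm_num))
  have P := pade a1 a2 a3 b c r1 r2 r3 s1 s2 s3 h0 h12 h23 hb0 hc p1 p2 p3 q1 q2 q3 e1 e2 e3 f1 f2 f3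
    (n + 1) (by omega)
  rw [← ht, hsb] at P
  have T1 : (4 * (a3 : ℝ) ^ 4) ^ (n + 1) * t * (b / b ^ (2 * (n + 1)) / z ^ 6) < 1 / 2 := by
    calc _ ≤ (z ^ 3) ^ (n + 1) * t * (b / b ^ (2 * (n + 1)) / z ^ 6) := by gcongr
      _ = (2 * z ^ 6 * t) / (z ^ 21) ^ (n + 1) / 2 := by
        rw [← hz]
        simp only [← pow_mul]
        rw [show 12 * (2 * (n + 1)) = 3 * (n + 1) + 21 * (n + 1) by ring, pow_add]
        field_simp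
      _ < 1 / 2 := by
        gcongr
        rw [div_lt_one (by positivity)]; exact hn2
  have T2 : 3 * ((2 ^ 10 * ((b : ℝ) + 1) * a3 ^ 6) ^ (n + 1) * √(b + 1) * (1 / t))
      ≤ 6 * z ^ (16 * n + 22) / t := by
    have : 2 ^ 10 * ((b : ℝ) + 1) * a3 ^ 6 ≤ z ^ 16 := by
      calc 2 ^ 10 * ((b : ℝ) + 1) * a3 ^ 6 ≤ 2 ^ 10 * ((b : ℝ) + b) * a3 ^ 6 := by gcongr
        _ = (2 ^ 11 * (a3 : ℝ) ^ 6) * b := by ring
        _ ≤ z ^ 4 * b := by gcongr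
        _ = z ^ 16 := by rw [← hz]; ring
    calc _ ≤ 3 * ((z ^ 16) ^ (n + 1) * (2 * z ^ 6) * (1 / t)) := by gcongr
      _ = _ := by rw [← pow_mul]; ring
  have T3 : t < z ^ (16 * n + 24) := by
    have h1 : 1 / 2 < 6 * z ^ (16 * n + 22) / t := by linarith
    rw [lt_div_iff₀ (by linarith)] at h1
    have h2 : z ^ (16 * n + 24) = z ^ 2 * z ^ (16 * n + 22) := by ring
    have h3 : 0 < z ^ (16 * n + 22) := by positivity
    have h4 : 16 ≤ z ^ 2 := by nlinarith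
    nlinarith
  have T4 : z ^ (21 * n) < z ^ (16 * n + 31) := by
    calc z ^ (21 * n) = (z ^ 21) ^ n := pow_mul _ _ _
      _ ≤ 2 * z ^ 6 * t := hn1
      _ < z * z ^ 6 * z ^ (16 * n + 24) := by gcongr; linarith
      _ = _ := by ring
  have T5 : 21 * n < 16 * n + 31 := (pow_lt_pow_iff_right₀ (by linarith : 1 < z)).mp T4
  have T6 : t < z ^ 120 := T3.trans_le (pow_le_pow_right₀ hz1 (by omega))
  have T7 : (c : ℝ) < (b : ℝ) ^ 20 := by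
    calc (c : ℝ) = t ^ 2 := (Real.sq_sqrt (by linarith)).symm
      _ < (z ^ 120) ^ 2 := by gcongr
      _ = _ := by rw [← hz]; ring
  exact_mod_cast T7

end Pool.Agent.P.MP_719a5e_nt
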