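import Pool.Agent.P.MP_719a5e_nt.Ana

set_option autoImplicit false

namespace Pool.Agent.P.MP_719a5e_nt

open Filter Topology Polynomial

noncomputable def inv1 (d : ℝ) (m : ℕ) : PowerSeries ℝ :=
  PowerSeries.mk fun n => ((m - 1 + n).choose (m - 1) : ℝ) * (-1) ^ n * (1 / d) ^ (m + n)

lemma inv1_mul (d : ℝ) (hd : d ≠ 0) (m : ℕ) (hm : 1 ≤ m) :
    (PowerSeries.X + PowerSeries.C d) ^ m * inv1 d m = 1 := by
  obtain ⟨e, rfl⟩ : ∃ e, m = e + 1 := ⟨m - 1, by omega⟩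
  have h := congrArg (PowerSeries.rescale (-(1 / d)))
    (PowerSeries.mk_add_choose_mul_one_sub_pow_eq_one ℝ e)
  rw [map_mul, map_pow, map_sub, map_one, PowerSeries.rescale_X] at h
  have e1 : inv1 d (e + 1) = PowerSeries.C ((1 / d) ^ (e + 1)) *
      PowerSeries.rescale (-(1 / d)) (PowerSeries.mk fun n => ((e + n).choose e : ℝ)) := by
    ext n
    simp only [inv1, PowerSeries.coeff_mk, PowerSeries.coeff_C_mul, PowerSeries.coeff_rescale,
      Nat.add_sub_cancel]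
    rw [neg_pow (1 / d), pow_add]; ring
  have e2 : (PowerSeries.X + PowerSeries.C d : PowerSeries ℝ) = PowerSeries.C d *
      (1 - PowerSeries.C (-(1 / d)) * PowerSeries.X) := by
    rw [mul_sub, ← mul_assoc, ← map_mul]
    have : d * -(1 / d) = -1 := by field_simp
    rw [this]; simp [add_comm]
  have e3 : (PowerSeries.C d : PowerSeries ℝ) ^ (e + 1) * PowerSeries.C ((1 / d) ^ (e + 1)) = 1 := by
    rw [← map_pow, ← map_mul, ← mul_pow]
    have : d * (1 / d) = 1 := by field_simp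
    rw [this]; simp
  rw [e1, e2, mul_pow]
  calc _ = ((PowerSeries.C d : PowerSeries ℝ) ^ (e + 1) * PowerSeries.C ((1 / d) ^ (e + 1))) *
      (PowerSeries.rescale (-(1 / d)) (PowerSeries.mk fun n => ((e + n).choose e : ℝ)) *
        (1 - PowerSeries.C (-(1 / d)) * PowerSeries.X) ^ (e + 1)) := by ring
    _ = 1 := by rw [e3, h, one_mul]

noncomputable def UU (w d1 d2 : ℝ) (k m1 m2 : ℕ) : PowerSeries ℝ :=
  (((X + C (-w)) ^ (k + 1) : ℝ[X]) : PowerSeries ℝ) * inv1 d1 m1 * inv1 d2 m2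

lemma node_dvd (w d1 d2 : ℝ) (h1 : d1 ≠ 0) (h2 : d2 ≠ 0) (k m m1 m2 : ℕ) (hm1 : 1 ≤ m1)
    (hm2 : 1 ≤ m2) :
    (X + C w) ^ m ∣ X ^ (k + 1) - (X + C (w + d1)) ^ m1 * (X + C (w + d2)) ^ m2 *
      (PowerSeries.trunc m (UU w d1 d2 k m1 m2)).comp (X + C w) := by
  set U := UU w d1 d2 k m1 m2 with hU
  have hA : (PowerSeries.X + PowerSeries.C d1) ^ m1 * (PowerSeries.X + PowerSeries.C d2) ^ m2 * U
      = (((X + C (-w)) ^ (k + 1) : ℝ[X]) : PowerSeries ℝ) := by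
    calc _ = (((X + C (-w)) ^ (k + 1) : ℝ[X]) : PowerSeries ℝ) *
        (((PowerSeries.X + PowerSeries.C d1) ^ m1 * inv1 d1 m1) *
        ((PowerSeries.X + PowerSeries.C d2) ^ m2 * inv1 d2 m2)) := by rw [hU, UU]; ring
      _ = _ := by rw [inv1_mul d1 h1 m1 hm1, inv1_mul d2 h2 m2 hm2]; ring
  have hT : (PowerSeries.X : PowerSeries ℝ) ^ m ∣ U - (PowerSeries.trunc m U : ℝ[X]) := by
    rw [PowerSeries.X_pow_dvd_iff]
    intro i hi
    simp [PowerSeries.coeff_trunc, hi]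
  have hP : (X : ℝ[X]) ^ m ∣ (X + C (-w)) ^ (k + 1) - (X + C d1) ^ m1 * (X + C d2) ^ m2 *
      PowerSeries.trunc m U := by
    rw [Polynomial.X_pow_dvd_iff]
    intro i hi
    rw [← Polynomial.coeff_coe]
    have hd : (PowerSeries.X : PowerSeries ℝ) ^ m ∣ (((X + C (-w)) ^ (k + 1) - (X + C d1) ^ m1 *
        (X + C d2) ^ m2 * PowerSeries.trunc m U : ℝ[X]) : PowerSeries ℝ) := by
      rw [Polynomial.coe_sub, ← hA]
      simp only [Polynomial.coe_mul, Polynomial.coe_pow, Polynomial.coe_add, Polynomial.coe_X,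
        Polynomial.coe_C]
      rw [← mul_sub]
      exact Dvd.dvd.mul_left hT _
    exact PowerSeries.X_pow_dvd_iff.mp hd i hi
  obtain ⟨Q, hQ⟩ := hP
  refine ⟨Q.comp (X + C w), ?_⟩
  have := congrArg (fun P : ℝ[X] => P.comp (X + C w)) hQ
  simp only [sub_comp, mul_comp, pow_comp, add_comp, X_comp, C_comp] at this
  rw [← this]
  simp only [map_add, map_neg]
  congr 2
  · ring
  · congr 2 <;> ring

lemma node_eval (U : PowerSeries ℝ) (m : ℕ) (y : ℝ) (hy : y ≠ 0) :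
    (PowerSeries.trunc m U).eval y / y ^ m
      = ∑ n ∈ Finset.range m, PowerSeries.coeff (m - 1 - n) U / y ^ (n + 1) := by
  have h := PowerSeries.eval₂_trunc_eq_sum_range y (RingHom.id ℝ) m U
  rw [eval₂_id] at h
  rw [h, ← Finset.sum_range_reflect, Finset.sum_div]
  refine Finset.sum_congr rfl fun n hn => ?_
  have hn' := Finset.mem_range.mp hn
  obtain ⟨e, rfl⟩ : ∃ e, m = e + (n + 1) := ⟨m - (n + 1), by omega⟩
  have : e + (n + 1) - 1 - n = e := by omega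
  rw [this, pow_add]
  simp only [RingHom.id_apply]
  field_simp

noncomputable def rho (w : ℝ) (U : PowerSeries ℝ) (m : ℕ) : ℝ :=
  ∑ n ∈ Finset.range m, PowerSeries.coeff (m - 1 - n) U * kap n / w ^ n

lemma node_ana (w : ℝ) (hw : 0 < w) (U : PowerSeries ℝ) (k m : ℕ) (hm : m ≤ k + 1) :
    ∃ Ω : ℝ → ℝ, (∀ τ, HasDerivAt Ω ((PowerSeries.trunc m U).eval (τ ^ 2 + w) / (τ ^ 2 + w) ^ m
        - rho w U m / (τ ^ 2 + w)) τ) ∧ Ω 0 = 0 ∧ Tendsto Ω atTop (𝓝 0) ∧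
      ∃ V : ℝ[X], ∀ τ, Ω τ = τ * V.eval (τ ^ 2) / (τ ^ 2 + w) ^ k := by
  refine ⟨fun τ => ∑ n ∈ Finset.range m, PowerSeries.coeff (m - 1 - n) U * psi w n τ, ?_, ?_, ?_, ?_⟩
  · intro τ
    have hy : τ ^ 2 + w ≠ 0 := by positivity
    have := HasDerivAt.fun_sum (u := Finset.range m) fun n _ =>
      (psi_deriv w hw n τ).const_mul (PowerSeries.coeff (m - 1 - n) U)
    rw [node_eval U m _ hy, rho, Finset.sum_div, ← Finset.sum_sub_distrib]
    have e : ∑ n ∈ Finset.range m, (PowerSeries.coeff (m - 1 - n) U / (τ ^ 2 + w) ^ (n + 1) -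
        PowerSeries.coeff (m - 1 - n) U * kap n / w ^ n / (τ ^ 2 + w)) =
        ∑ n ∈ Finset.range m, PowerSeries.coeff (m - 1 - n) U *
          (1 / (τ ^ 2 + w) ^ (n + 1) - kap n / w ^ n / (τ ^ 2 + w)) :=
      Finset.sum_congr rfl fun n _ => by ring
    rw [e]; exact this
  · simp [psi_zero]
  · have := tendsto_finsetSum (Finset.range m) fun n _ =>
      (psi_tendsto w hw n).const_mul (PowerSeries.coeff (m - 1 - n) U)
    simpa using this
  · choose V hV using psi_poly w hw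
    refine ⟨∑ n ∈ Finset.range m, C (PowerSeries.coeff (m - 1 - n) U) * V n * (X + C w) ^ (k - n),
      fun τ => ?_⟩
    have hy : τ ^ 2 + w ≠ 0 := by positivity
    rw [eval_finsetSum, Finset.mul_sum, Finset.sum_div]
    refine Finset.sum_congr rfl fun n hn => ?_
    have hn' := Finset.mem_range.mp hn
    obtain ⟨e, rfl⟩ : ∃ e, k = e + n := ⟨k - n, by omega⟩
    rw [hV, Nat.add_sub_cancel, pow_add]
    simp only [eval_mul, eval_C, eval_pow, eval_add, eval_X]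
    field_simp

def Gd (a M x : ℝ) : Prop := (∃ z : ℤ, x = a * z) ∧ |x| ≤ M

lemma Gd.sum {ι : Type*} (a M : ℝ) (hM : 0 ≤ M) (s : Finset ι) (f : ι → ℝ) (N : ℕ)
    (hN : s.card ≤ N) (h : ∀ i ∈ s, Gd a M (f i)) : Gd a (N * M) (∑ i ∈ s, f i) := by
  constructor
  · classical
    have : ∀ i ∈ s, ∃ z : ℤ, f i = a * z := fun i hi => (h i hi).1
    choose! z hz using this
    refine ⟨∑ i ∈ s, z i, ?_⟩
    rw [Finset.sum_congr rfl hz, ← Finset.mul_sum]; push_cast; rfl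
  · calc |∑ i ∈ s, f i| ≤ ∑ i ∈ s, |f i| := Finset.abs_sum_le_sum_abs _ _
      _ ≤ s.card • M := Finset.sum_le_card_nsmul _ _ _ fun i hi => (h i hi).2
      _ = s.card * M := by simp
      _ ≤ N * M := by gcongr

noncomputable def Sc (k : ℕ) (a a' a'' : ℝ) : ℝ :=
  4 ^ k * ((a - a') * (a - a'') * (a' - a'')) ^ (2 * k) / (a * a' * a'') ^ k

lemma term_eq (a a' a'' R : ℝ) (ha : a ≠ 0) (ha' : a' ≠ 0) (ha'' : a'' ≠ 0) (h1 : a - a' ≠ 0)
    (h2 : a - a'' ≠ 0) (hR : R ≠ 0) (g0 n G1 G2 : ℕ) (c cb : ℝ) :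
    Sc (g0 + n + G1 + G2) a a' a'' * (c * (R / a) ^ (n + 1 + G1 + G2) *
      (1 / ((a - a') / (a * a'))) ^ (g0 + n + G1 + G2 + G1) *
      (1 / ((a - a'') / (a * a''))) ^ (g0 + n + G1 + G2 + G2) * (cb / 4 ^ n) / (R / a) ^ n / (R / a))
    = a ^ (g0 + n + G1 + G2) * (c * (4 ^ (g0 + G1 + G2) * cb) * R ^ (G1 + G2) *
      (a' ^ G1 * (a - a') ^ (g0 + n + G2)) * (a'' ^ G2 * (a - a'') ^ (g0 + n + G1)) *
      (a' - a'') ^ (2 * (g0 + n + G1 + G2))) := by
  unfold Sc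
  generalize a - a' = x at *
  generalize a - a'' = y at *
  generalize a' - a'' = z at *
  simp only [one_div, inv_div, div_pow, mul_pow, pow_add, two_mul, pow_one]
  field_simp

end Pool.Agent.P.MP_719a5e_nt
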