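import Pool.Agent.P.MP_719a5e_nt.Arith

set_option autoImplicit false

namespace Pool.Agent.P.MP_719a5e_nt

open Filter Topology Polynomial

lemma cop (u v : ℝ) (h : u ≠ v) (m n : ℕ) : IsCoprime ((X + C u : ℝ[X]) ^ m) ((X + C v) ^ n) := by
  have := isCoprime_X_sub_C_of_isUnit_sub (R := ℝ) (a := -u) (b := -v)
    (isUnit_iff_ne_zero.mpr (by intro h'; apply h; linarith))
  simp only [map_neg, sub_neg_eq_add] at this
  exact this.pow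

lemma deg_term (u v w : ℝ) (m m1 m2 : ℕ) (hm : 1 ≤ m) (U : PowerSeries ℝ) :
    ((X + C u) ^ m1 * (X + C v) ^ m2 * (PowerSeries.trunc m U).comp (X + C w)).natDegree
      ≤ m1 + m2 + (m - 1) := by
  obtain ⟨e, rfl⟩ : ∃ e, m = e + 1 := ⟨m - 1, by omega⟩
  have h1 := PowerSeries.natDegree_trunc_lt U e
  have h2 : ((PowerSeries.trunc (e + 1) U).comp (X + C w)).natDegree ≤ e := by
    refine natDegree_comp_le.trans ?_
    rw [natDegree_X_add_C]; omega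
  refine natDegree_mul_le.trans ?_
  have h3 : ((X + C u) ^ m1 * (X + C v) ^ m2 : ℝ[X]).natDegree ≤ m1 + m2 := by
    refine natDegree_mul_le.trans ?_
    simp [natDegree_pow]
  omega

lemma pf (w1 w2 w3 : ℝ) (h12 : w1 ≠ w2) (h13 : w1 ≠ w3) (h23 : w2 ≠ w3) (k m1 m2 m3 : ℕ)
    (p1 : 1 ≤ m1) (p2 : 1 ≤ m2) (p3 : 1 ≤ m3) (hs : k + 1 < m1 + m2 + m3) :
    (X : ℝ[X]) ^ (k + 1) =
      (X + C w2) ^ m2 * (X + C w3) ^ m3 *
        (PowerSeries.trunc m1 (UU w1 (w2 - w1) (w3 - w1) k m2 m3)).comp (X + C w1) +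
      (X + C w1) ^ m1 * (X + C w3) ^ m3 *
        (PowerSeries.trunc m2 (UU w2 (w1 - w2) (w3 - w2) k m1 m3)).comp (X + C w2) +
      (X + C w1) ^ m1 * (X + C w2) ^ m2 *
        (PowerSeries.trunc m3 (UU w3 (w1 - w3) (w2 - w3) k m1 m2)).comp (X + C w3) := by
  have d1 := node_dvd w1 (w2 - w1) (w3 - w1) (sub_ne_zero.mpr h12.symm) (sub_ne_zero.mpr h13.symm)
    k m1 m2 m3 p2 p3
  have d2 := node_dvd w2 (w1 - w2) (w3 - w2) (sub_ne_zero.mpr h12) (sub_ne_zero.mpr h23.symm)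
    k m2 m1 m3 p1 p3
  have d3 := node_dvd w3 (w1 - w3) (w2 - w3) (sub_ne_zero.mpr h13) (sub_ne_zero.mpr h23)
    k m3 m1 m2 p1 p2
  simp only [add_sub_cancel] at d1 d2 d3
  have g1 := deg_term w2 w3 w1 m1 m2 m3 p1 (UU w1 (w2 - w1) (w3 - w1) k m2 m3)
  have g2 := deg_term w1 w3 w2 m2 m1 m3 p2 (UU w2 (w1 - w2) (w3 - w2) k m1 m3)
  have g3 := deg_term w1 w2 w3 m3 m1 m2 p3 (UU w3 (w1 - w3) (w2 - w3) k m1 m2)
  generalize (PowerSeries.trunc m1 (UU w1 (w2 - w1) (w3 - w1) k m2 m3)).comp (X + C w1) = T1 at *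
  generalize (PowerSeries.trunc m2 (UU w2 (w1 - w2) (w3 - w2) k m1 m3)).comp (X + C w2) = T2 at *
  generalize (PowerSeries.trunc m3 (UU w3 (w1 - w3) (w2 - w3) k m1 m2)).comp (X + C w3) = T3 at *
  set y1 : ℝ[X] := (X + C w1) ^ m1 with hy1
  set y2 : ℝ[X] := (X + C w2) ^ m2 with hy2
  set y3 : ℝ[X] := (X + C w3) ^ m3 with hy3
  set P : ℝ[X] := X ^ (k + 1) - (y2 * y3 * T1 + y1 * y3 * T2 + y1 * y2 * T3) with hP
  have e1 : y1 ∣ P := by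
    have : P = (X ^ (k + 1) - y2 * y3 * T1) - y1 * (y3 * T2 + y2 * T3) := by rw [hP]; ring
    rw [this]; exact dvd_sub d1 (dvd_mul_right _ _)
  have e2 : y2 ∣ P := by
    have : P = (X ^ (k + 1) - y1 * y3 * T2) - y2 * (y3 * T1 + y1 * T3) := by rw [hP]; ring
    rw [this]; exact dvd_sub d2 (dvd_mul_right _ _)
  have e3 : y3 ∣ P := by
    have : P = (X ^ (k + 1) - y1 * y2 * T3) - y3 * (y2 * T1 + y1 * T2) := by rw [hP]; ring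
    rw [this]; exact dvd_sub d3 (dvd_mul_right _ _)
  have c12 : IsCoprime y1 y2 := cop _ _ h12 _ _
  have c13 : IsCoprime y1 y3 := cop _ _ h13 _ _
  have c23 : IsCoprime y2 y3 := cop _ _ h23 _ _
  have e : y1 * y2 * y3 ∣ P := (c13.mul_left c23).mul_dvd (c12.mul_dvd e1 e2) e3
  have hm : ∀ (u : ℝ) (m : ℕ), ((X + C u : ℝ[X]) ^ m).Monic := fun u m => (monic_X_add_C u).pow m
  have hdeg : (y1 * y2 * y3).natDegree = m1 + m2 + m3 := by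
    rw [((hm _ _).mul (hm _ _)).natDegree_mul (hm _ _), (hm _ _).natDegree_mul (hm _ _)]
    simp [natDegree_pow]
  have hPd : P.natDegree < m1 + m2 + m3 := by
    have a1 := natDegree_sub_le (X ^ (k + 1) : ℝ[X]) (y2 * y3 * T1 + y1 * y3 * T2 + y1 * y2 * T3)
    have a2 := natDegree_add_le (y2 * y3 * T1 + y1 * y3 * T2) (y1 * y2 * T3)
    have a3 := natDegree_add_le (y2 * y3 * T1) (y1 * y3 * T2)
    rw [natDegree_X_pow, ← hP] at a1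
    omega
  have hz : P = 0 := eq_zero_of_dvd_of_natDegree_lt e (by omega)
  exact sub_eq_zero.mp hz

lemma Sc_swap1 (k : ℕ) (a b c : ℝ) : Sc k b a c = Sc k a b c := by
  unfold Sc
  rw [pow_mul, pow_mul]
  congr 2 <;> ring

lemma Sc_swap2 (k : ℕ) (a b c : ℝ) : Sc k c a b = Sc k a b c := by
  unfold Sc
  rw [pow_mul, pow_mul]
  congr 2 <;> ring

lemma g_le (w1 w2 w3 b τ : ℝ) (hb : 0 < b) (h1 : b ≤ w1) (h2 : b ≤ w2) (h3 : b ≤ w3)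
    (k m1 m2 m3 : ℕ) (hk : 1 ≤ k) (hs : m1 + m2 + m3 = 3 * k + 1) :
    (τ ^ 2) ^ (k + 1) / ((τ ^ 2 + w1) ^ m1 * (τ ^ 2 + w2) ^ m2 * (τ ^ 2 + w3) ^ m3)
      ≤ b / b ^ (2 * k) / (τ ^ 2 + b) := by
  have hy : 0 < τ ^ 2 + b := by positivity
  have y1 : 0 < τ ^ 2 + w1 := by linarith
  have y2 : 0 < τ ^ 2 + w2 := by linarith
  have y3 : 0 < τ ^ 2 + w3 := by linarith
  obtain ⟨j, rfl⟩ : ∃ j, k = j + 1 := ⟨k - 1, by omega⟩
  calc _ ≤ (τ ^ 2 + b) ^ (j + 1 + 1) / ((τ ^ 2 + b) ^ m1 * (τ ^ 2 + b) ^ m2 * (τ ^ 2 + b) ^ m3) := by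
        gcongr
        linarith
    _ = 1 / (τ ^ 2 + b) ^ (2 * j + 1) / (τ ^ 2 + b) := by
        rw [← pow_add, ← pow_add, hs]
        field_simp
        ring
    _ ≤ 1 / b ^ (2 * j + 1) / (τ ^ 2 + b) := by
        gcongr
        nlinarith [sq_nonneg τ]
    _ = _ := by
        congr 1
        field_simp
        ring

lemma row (a1 a2 a3 b q : ℤ) (p1 : 0 < a1) (p2 : 0 < a2) (p3 : 0 < a3) (q1 : a1 ≤ q) (q2 : a2 ≤ q)
    (q3 : a3 ≤ q) (hb : 0 < b) (h12 : a1 ≠ a2) (h13 : a1 ≠ a3) (h23 : a2 ≠ a3)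
    (k e1 e2 e3 : ℕ) (hk : 1 ≤ k) (he : e1 + e2 + e3 = 1) (w1 w2 w3 : ℝ)
    (hw1 : w1 = ((a1 : ℝ) * b + 1) / a1) (hw2 : w2 = ((a2 : ℝ) * b + 1) / a2)
    (hw3 : w3 = ((a3 : ℝ) * b + 1) / a3) :
    ∃ π1 π2 π3 : ℝ, ∃ S : ℝ[X],
      Gd a1 ((2 ^ 10 * ((b : ℝ) + 1) * q ^ 6) ^ k) (Sc k a1 a2 a3 * π1) ∧
      Gd a2 ((2 ^ 10 * ((b : ℝ) + 1) * q ^ 6) ^ k) (Sc k a1 a2 a3 * π2) ∧
      Gd a3 ((2 ^ 10 * ((b : ℝ) + 1) * q ^ 6) ^ k) (Sc k a1 a2 a3 * π3) ∧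
      0 ≤ π1 * √w1 + π2 * √w2 + π3 * √w3 ∧
      π1 * √w1 + π2 * √w2 + π3 * √w3 ≤ b / b ^ (2 * k) / √b ∧
      ∀ τ : ℝ, HasDerivAt
        (fun τ : ℝ => τ * S.eval (τ ^ 2) / ((τ ^ 2 + w1) * (τ ^ 2 + w2) * (τ ^ 2 + w3)) ^ k)
        ((τ ^ 2) ^ (k + 1) / ((τ ^ 2 + w1) ^ (k + e1) * (τ ^ 2 + w2) ^ (k + e2) * (τ ^ 2 + w3) ^ (k + e3))
          - (π1 * w1 / (τ ^ 2 + w1) + π2 * w2 / (τ ^ 2 + w2) + π3 * w3 / (τ ^ 2 + w3))) τ := by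
  have r1 : (0 : ℝ) < a1 := by exact_mod_cast p1
  have r2 : (0 : ℝ) < a2 := by exact_mod_cast p2
  have r3 : (0 : ℝ) < a3 := by exact_mod_cast p3
  have rb : (0 : ℝ) < b := by exact_mod_cast hb
  have hlt : ∀ a : ℝ, 0 < a → (b : ℝ) ≤ (a * b + 1) / a := fun a ha => by
    rw [le_div_iff₀ ha]; linarith
  have b1 : (b : ℝ) ≤ w1 := hw1 ▸ hlt _ r1
  have b2 : (b : ℝ) ≤ w2 := hw2 ▸ hlt _ r2
  have b3 : (b : ℝ) ≤ w3 := hw3 ▸ hlt _ r3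
  have o1 : 0 < w1 := by linarith
  have o2 : 0 < w2 := by linarith
  have o3 : 0 < w3 := by linarith
  have hdiff : ∀ x y : ℝ, 0 < x → 0 < y → (y * b + 1) / y - (x * b + 1) / x = (x - y) / (x * y) :=
    fun x y hx hy => by field_simp; ring
  have hne : ∀ x y : ℤ, 0 < x → 0 < y → x ≠ y → ((x : ℝ) * b + 1) / x ≠ ((y : ℝ) * b + 1) / y := by
    intro x y hx hy hxy h
    have hx' : (0 : ℝ) < x := by exact_mod_cast hx
    have hy' : (0 : ℝ) < y := by exact_mod_cast hy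
    have := hdiff x y hx' hy'
    rw [h, sub_self, eq_comm, div_eq_zero_iff] at this
    rcases this with h | h
    · exact hxy (by exact_mod_cast sub_eq_zero.mp h)
    · exact absurd h (by positivity)
  have n12 : w1 ≠ w2 := by rw [hw1, hw2]; exact hne _ _ p1 p2 h12
  have n13 : w1 ≠ w3 := by rw [hw1, hw3]; exact hne _ _ p1 p3 h13
  have n23 : w2 ≠ w3 := by rw [hw2, hw3]; exact hne _ _ p2 p3 h23
  have A1 := node_arith a1 a2 a3 b q p1 p2 p3 q1 q2 q3 hb h12 h13 k e1 e2 e3 hk he w1 (w2 - w1)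
    (w3 - w1) hw1 (by rw [hw1, hw2]; exact hdiff _ _ r1 r2) (by rw [hw1, hw3]; exact hdiff _ _ r1 r3)
  have A2 := node_arith a2 a1 a3 b q p2 p1 p3 q2 q1 q3 hb h12.symm h23 k e2 e1 e3 hk (by omega) w2
    (w1 - w2) (w3 - w2) hw2 (by rw [hw1, hw2]; exact hdiff _ _ r2 r1)
    (by rw [hw2, hw3]; exact hdiff _ _ r2 r3)
  have A3 := node_arith a3 a1 a2 b q p3 p1 p2 q3 q1 q2 hb h13.symm h23.symm k e3 e1 e2 hk (by omega)
    w3 (w1 - w3) (w2 - w3) hw3 (by rw [hw1, hw3]; exact hdiff _ _ r3 r1)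
    (by rw [hw2, hw3]; exact hdiff _ _ r3 r2)
  rw [Sc_swap1] at A2
  rw [Sc_swap2] at A3
  have hpf := pf w1 w2 w3 n12 n13 n23 k (k + e1) (k + e2) (k + e3) (by omega) (by omega) (by omega)
    (by omega)
  obtain ⟨Ω1, D1, Z1, L1, V1, E1⟩ := node_ana w1 o1
    (UU w1 (w2 - w1) (w3 - w1) k (k + e2) (k + e3)) k (k + e1) (by omega)
  obtain ⟨Ω2, D2, Z2, L2, V2, E2⟩ := node_ana w2 o2
    (UU w2 (w1 - w2) (w3 - w2) k (k + e1) (k + e3)) k (k + e2) (by omega)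
  obtain ⟨Ω3, D3, Z3, L3, V3, E3⟩ := node_ana w3 o3
    (UU w3 (w1 - w3) (w2 - w3) k (k + e1) (k + e2)) k (k + e3) (by omega)
  generalize rho w1 _ _ = ρ1 at *
  generalize rho w2 _ _ = ρ2 at *
  generalize rho w3 _ _ = ρ3 at *
  generalize PowerSeries.trunc (k + e1) (UU w1 (w2 - w1) (w3 - w1) k (k + e2) (k + e3)) = T1 at *
  generalize PowerSeries.trunc (k + e2) (UU w2 (w1 - w2) (w3 - w2) k (k + e1) (k + e3)) = T2 at *
  generalize PowerSeries.trunc (k + e3) (UU w3 (w1 - w3) (w2 - w3) k (k + e1) (k + e2)) = T3 at *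
  have D : ∀ τ : ℝ, HasDerivAt (fun τ => Ω1 τ + Ω2 τ + Ω3 τ)
      ((τ ^ 2) ^ (k + 1) / ((τ ^ 2 + w1) ^ (k + e1) * (τ ^ 2 + w2) ^ (k + e2) * (τ ^ 2 + w3) ^ (k + e3))
        - (ρ1 / (τ ^ 2 + w1) + ρ2 / (τ ^ 2 + w2) + ρ3 / (τ ^ 2 + w3))) τ := by
    intro τ
    have h := congrArg (eval (τ ^ 2)) hpf
    simp only [eval_pow, eval_X, eval_add, eval_mul, eval_C, eval_comp] at h
    have y1 : τ ^ 2 + w1 ≠ 0 := by positivity
    have y2 : τ ^ 2 + w2 ≠ 0 := by positivity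
    have y3 : τ ^ 2 + w3 ≠ 0 := by positivity
    have e : (τ ^ 2) ^ (k + 1) / ((τ ^ 2 + w1) ^ (k + e1) * (τ ^ 2 + w2) ^ (k + e2) *
        (τ ^ 2 + w3) ^ (k + e3)) - (ρ1 / (τ ^ 2 + w1) + ρ2 / (τ ^ 2 + w2) + ρ3 / (τ ^ 2 + w3)) =
        (eval (τ ^ 2 + w1) T1 / (τ ^ 2 + w1) ^ (k + e1) - ρ1 / (τ ^ 2 + w1)) +
        (eval (τ ^ 2 + w2) T2 / (τ ^ 2 + w2) ^ (k + e2) - ρ2 / (τ ^ 2 + w2)) +
        (eval (τ ^ 2 + w3) T3 / (τ ^ 2 + w3) ^ (k + e3) - ρ3 / (τ ^ 2 + w3)) := by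
      rw [h]
      have z1 := pow_ne_zero (k + e1) y1
      have z2 := pow_ne_zero (k + e2) y2
      have z3 := pow_ne_zero (k + e3) y3
      generalize (τ ^ 2 + w1) ^ (k + e1) = u1 at *
      generalize (τ ^ 2 + w2) ^ (k + e2) = u2 at *
      generalize (τ ^ 2 + w3) ^ (k + e3) = u3 at *
      field_simp
      ring
    rw [e]
    exact ((D1 τ).add (D2 τ)).add (D3 τ)
  have hA := lemA w1 w2 w3 b (b / b ^ (2 * k)) ρ1 ρ2 ρ3 o1 o2 o3 rb _ _ D (by simp [Z1, Z2, Z3])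
    (by simpa using (L1.add L2).add L3) (fun τ => by positivity)
    (fun τ => g_le w1 w2 w3 b τ rb b1 b2 b3 k _ _ _ hk (by omega))
  have hs : ∀ ρ w : ℝ, 0 < w → ρ / w * √w = ρ / √w := fun ρ w hw => by
    have h1 : 0 < √w := Real.sqrt_pos.mpr hw
    have h2 : √w * √w = w := Real.mul_self_sqrt hw.le
    field_simp
    rw [sq, h2]
  refine ⟨ρ1 / w1, ρ2 / w2, ρ3 / w3, V1 * ((X + C w2) * (X + C w3)) ^ k +
    V2 * ((X + C w1) * (X + C w3)) ^ k + V3 * ((X + C w1) * (X + C w2)) ^ k, A1, A2, A3, ?_, ?_, ?_⟩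
  · rw [hs _ _ o1, hs _ _ o2, hs _ _ o3]; exact hA.1
  · rw [hs _ _ o1, hs _ _ o2, hs _ _ o3]; exact hA.2
  · intro τ
    rw [div_mul_cancel₀ _ o1.ne', div_mul_cancel₀ _ o2.ne', div_mul_cancel₀ _ o3.ne']
    have ef : (fun τ : ℝ => τ * (V1 * ((X + C w2) * (X + C w3)) ^ k +
        V2 * ((X + C w1) * (X + C w3)) ^ k + V3 * ((X + C w1) * (X + C w2)) ^ k).eval (τ ^ 2) /
        ((τ ^ 2 + w1) * (τ ^ 2 + w2) * (τ ^ 2 + w3)) ^ k) = fun τ => Ω1 τ + Ω2 τ + Ω3 τ := by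
      funext τ
      have y1 : τ ^ 2 + w1 ≠ 0 := by positivity
      have y2 : τ ^ 2 + w2 ≠ 0 := by positivity
      have y3 : τ ^ 2 + w3 ≠ 0 := by positivity
      rw [E1, E2, E3]
      simp only [eval_pow, eval_X, eval_add, eval_mul, eval_C, mul_pow]
      have z1 := pow_ne_zero k y1
      have z2 := pow_ne_zero k y2
      have z3 := pow_ne_zero k y3
      generalize (τ ^ 2 + w1) ^ k = u1 at *
      generalize (τ ^ 2 + w2) ^ k = u2 at *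
      generalize (τ ^ 2 + w3) ^ k = u3 at *
      field_simp
    rw [ef]
    exact D τ

end Pool.Agent.P.MP_719a5e_nt
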